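import Pool.Agent.W603.LV.Loc

/-!
Linear algebra: bases adapted to a level function, triangular changes of the rows of a determinant,
and the exchange of rows at a place of a function field.
-/

set_option autoImplicit false

open FF Pool.Agent.W603.LV

namespace Pool.Agent.TH812.GV

section det

variable {K : Type} [Field K] {N : ℕ}

/-- Triangular change of the rows. -/
theorem det_tri (b b' : Matrix (Fin N) (Fin N) K) (lev : Fin N → ℕ) (σ : Fin N → K)
    (c : Fin N → Fin N → K) (hc : ∀ t s, c t s ≠ 0 → lev s < lev t)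
    (h : ∀ t, b' t = σ t • b t + ∑ s, c t s • b s) : b'.det = (∏ t, σ t) * b.det := by
  classical
  obtain ⟨M, hM⟩ : ∃ M : Matrix (Fin N) (Fin N) K,
    ∀ t s, M t s = (if t = s then σ t else 0) + c t s :=
    ⟨Matrix.of fun t s => (if t = s then σ t else 0) + c t s, fun _ _ => rfl⟩
  have h1 : b' = M * b := by
    ext t l
    rw [Matrix.mul_apply, h t]
    simp only [hM, add_mul, ite_mul, zero_mul, Finset.sum_add_distrib, Finset.sum_ite_eq,
      Finset.mem_univ, if_true, Pi.add_apply, Pi.smul_apply, smul_eq_mul, Finset.sum_apply]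
  have hcd : ∀ t, c t t = 0 := fun t => by
    by_contra hne
    exact lt_irrefl _ (hc t t hne)
  have h2 : M.det = ∏ t, σ t := by
    obtain ⟨e, he⟩ : ∃ e : Equiv.Perm (Fin N), Monotone (lev ∘ e) :=
      ⟨Tuple.sort lev, Tuple.monotone_sort lev⟩
    rw [← Matrix.det_submatrix_equiv_self e M, Matrix.det_of_isLowerTriangular]
    · refine (Finset.prod_congr rfl fun i _ => ?_).trans (Equiv.prod_comp e σ)
      rw [Matrix.submatrix_apply, hM, if_pos rfl, hcd, add_zero]
    · intro i j hij
      have hij' : i < j := hij
      rw [Matrix.submatrix_apply, hM, if_neg (fun h => hij'.ne (e.injective h)), zero_add]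
      by_contra hne
      have h3 := hc _ _ hne
      have h4 := he hij'.le
      simp only [Function.comp_apply] at h4
      omega
  rw [h1, Matrix.det_mul, h2]

/-- Expansion of a vector in the rows of an invertible matrix. -/
theorem exists_coord {b : Matrix (Fin N) (Fin N) K} (hb : b.det ≠ 0) (y : Fin N → K) :
    ∃ c : Fin N → K, y = ∑ s, c s • b s := by
  have hu : IsUnit b.det := isUnit_iff_ne_zero.2 hb
  refine ⟨Matrix.vecMul y b⁻¹, ?_⟩
  have h1 : Matrix.vecMul (Matrix.vecMul y b⁻¹) b = y := by
    rw [Matrix.vecMul_vecMul, Matrix.nonsing_inv_mul _ hu, Matrix.vecMul_one]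
  conv_lhs => rw [← h1]
  funext l
  rw [Finset.sum_apply]
  simp only [Matrix.vecMul, dotProduct, Pi.smul_apply, smul_eq_mul]

theorem det_update (b : Matrix (Fin N) (Fin N) K) (t : Fin N) (c : Fin N → K) :
    (b.updateRow t (∑ s, c s • b s)).det = c t * b.det := by
  rw [Matrix.det_updateRow_sum, smul_eq_mul]

/-- A basis among the generators that is adapted to the levels. -/
theorem exists_adapted {G : Type} (w : G → Fin N → K) (lev : G → ℕ)
    (hspan : Submodule.span K (Set.range w) = ⊤) :
    ∃ v : Fin N → G, (Matrix.of fun t => w (v t)).det ≠ 0 ∧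
      ∀ g (c : Fin N → K), w g = ∑ s, c s • w (v s) → ∀ s, c s ≠ 0 → lev (v s) ≤ lev g := by
  classical
  have hex : ∃ v : Fin N → G, (Matrix.of fun t => w (v t)).det ≠ 0 := by
    obtain ⟨b, hb, hbs, hli⟩ := exists_linearIndependent K (Set.range w)
    rw [hspan] at hbs
    have hfin : Fintype b := hli.setFinite.fintype
    have hcard : Fintype.card b = N := by
      have h1 := finrank_span_eq_card hli
      rw [Subtype.range_coe, hbs, finrank_top, Module.finrank_fin_fun] at h1
      exact h1.symm
    obtain ⟨e⟩ : Nonempty (Fin N ≃ b) := ⟨(Fintype.equivFinOfCardEq hcard).symm⟩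
    choose f hf using fun x : b => hb x.2
    refine ⟨fun t => f (e t), ?_⟩
    have h2 : LinearIndependent K (Matrix.of fun t => w (f (e t))).row := by
      have h3 : (Matrix.of fun t => w (f (e t))).row = (fun x : b => (x : Fin N → K)) ∘ e := by
        funext t
        exact hf (e t)
      rw [h3]
      exact hli.comp e e.injective
    have h4 : IsUnit (Matrix.of fun t => w (f (e t))) :=
      Matrix.linearIndependent_rows_iff_isUnit.1 h2
    exact ((Matrix.isUnit_iff_isUnit_det _).1 h4).ne_zero
  have hne : {m : ℕ | ∃ v : Fin N → G, (Matrix.of fun t => w (v t)).det ≠ 0 ∧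
      ∑ t, lev (v t) = m}.Nonempty := by
    obtain ⟨v, hv⟩ := hex
    exact ⟨_, v, hv, rfl⟩
  obtain ⟨v, hv, hm⟩ := Nat.sInf_mem hne
  refine ⟨v, hv, fun g c hg s hs => ?_⟩
  by_contra hcon
  push Not at hcon
  have h1 : (Matrix.of fun t => w (Function.update v s g t)) =
      (Matrix.of fun t => w (v t)).updateRow s (∑ t, c t • (Matrix.of fun t => w (v t)) t) := by
    ext t l
    by_cases hts : t = s
    · subst hts
      rw [Matrix.updateRow_self, Matrix.of_apply, Function.update_self, hg]
      rfl
    · rw [Matrix.updateRow_ne hts, Matrix.of_apply, Function.update_of_ne hts, Matrix.of_apply]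
  have h2 : (Matrix.of fun t => w (Function.update v s g t)).det ≠ 0 := by
    rw [h1, det_update]
    exact mul_ne_zero hs hv
  have h3 : ∑ t, lev (Function.update v s g t) < ∑ t, lev (v t) := by
    refine Finset.sum_lt_sum (fun t _ => ?_) ⟨s, Finset.mem_univ _, ?_⟩
    · by_cases hts : t = s
      · subst hts
        rw [Function.update_self]
        exact hcon.le
      · rw [Function.update_of_ne hts]
    · rw [Function.update_self]
      exact hcon
  have h4 := Nat.sInf_le (s := {m : ℕ | ∃ v : Fin N → G, (Matrix.of fun t => w (v t)).det ≠ 0 ∧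
      ∑ t, lev (v t) = m}) ⟨Function.update v s g, h2, rfl⟩
  omega

theorem li_of_det {b : Matrix (Fin N) (Fin N) K} (hb : b.det ≠ 0) : LinearIndependent K b := by
  have h4 : IsUnit b := (Matrix.isUnit_iff_isUnit_det _).2 (isUnit_iff_ne_zero.2 hb)
  exact Matrix.linearIndependent_rows_iff_isUnit.2 h4

theorem coef_of_span {b : Fin N → Fin N → K} {T : Finset (Fin N)} {y : Fin N → K}
    (hy : y ∈ Submodule.span K (b '' T)) :
    ∃ c : Fin N → K, (∀ t, c t ≠ 0 → t ∈ T) ∧ y = ∑ t, c t • b t := by
  classical
  induction hy using Submodule.span_induction with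
  | mem z hz =>
    obtain ⟨t, ht, rfl⟩ := hz
    refine ⟨Pi.single t 1, fun s hs => ?_, ?_⟩
    · by_contra hcon
      apply hs
      rw [Pi.single_eq_of_ne]
      rintro rfl
      exact hcon ht
    · rw [Finset.sum_eq_single t]
      · rw [Pi.single_eq_same, one_smul]
      · intro s _ hs
        rw [Pi.single_eq_of_ne hs, zero_smul]
      · intro h; exact absurd (Finset.mem_univ t) h
  | zero => exact ⟨0, fun t ht => absurd rfl ht, by simp⟩
  | add y z _ _ hy hz =>
    obtain ⟨c, hc, rfl⟩ := hy
    obtain ⟨c', hc', rfl⟩ := hz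
    refine ⟨c + c', fun t ht => ?_, ?_⟩
    · by_contra hcon
      apply ht
      have h1 : c t = 0 := by
        by_contra h; exact hcon (hc t h)
      have h2 : c' t = 0 := by
        by_contra h; exact hcon (hc' t h)
      rw [Pi.add_apply, h1, h2, add_zero]
    · rw [← Finset.sum_add_distrib]
      exact Finset.sum_congr rfl fun t _ => by rw [Pi.add_apply, add_smul]
  | smul r y _ hy =>
    obtain ⟨c, hc, rfl⟩ := hy
    refine ⟨r • c, fun t ht => hc t ?_, ?_⟩
    · intro h0
      apply ht
      rw [Pi.smul_apply, h0, smul_zero]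
    · rw [Finset.smul_sum]
      exact Finset.sum_congr rfl fun t _ => by rw [Pi.smul_apply, smul_assoc]

/-- Triangular changes preserve the spans. -/
theorem span_eq_of_le {b b' : Matrix (Fin N) (Fin N) K} (hb : b.det ≠ 0) (hb' : b'.det ≠ 0)
    (T : Finset (Fin N)) (h : ∀ t ∈ T, b' t ∈ Submodule.span K (b '' T)) :
    Submodule.span K (b' '' T) = Submodule.span K (b '' T) := by
  classical
  have hcard : ∀ {c : Matrix (Fin N) (Fin N) K}, c.det ≠ 0 →
      Module.finrank K (Submodule.span K (c '' T)) = T.card := by
    intro c hc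
    have h1 := (li_of_det hc).comp (Subtype.val : T → Fin N) Subtype.val_injective
    have h2 := finrank_span_eq_card h1
    rw [Fintype.card_coe] at h2
    have h3 : c '' T = Set.range (c ∘ (Subtype.val : T → Fin N)) := by
      ext z
      constructor
      · rintro ⟨t, ht, rfl⟩
        exact ⟨⟨t, ht⟩, rfl⟩
      · rintro ⟨t, rfl⟩
        exact ⟨t.1, t.2, rfl⟩
    rw [h3, h2]
  apply Submodule.eq_of_le_of_finrank_eq
  · rw [Submodule.span_le]
    rintro _ ⟨t, ht, rfl⟩
    exact h t ht
  · rw [hcard hb, hcard hb']

end det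

section exch

variable {k K : Type} [Field k] [Field K] [Algebra k K] {N : ℕ}

/-- The exchange of rows: if the vectors `y a` lie in the span of the rows in `T`, the linear form
`φ a` has order at least `g a - 1 - q` on the rows, and `φ a (y a)` is close to `-1`, then the
order of the determinant is large. -/
theorem exch (P : Place k K) {ι : Type} (φ : ι → (Fin N → K) →ₗ[K] K) (y : ι → Fin N → K)
    (g : ι → ℤ) {q : ℤ} (T : Finset (Fin N)) (S : Finset ι) :
    ∀ b : Matrix (Fin N) (Fin N) K, b.det ≠ 0 → (∀ t ∈ T, ∀ l, Ge P (-q) (b t l)) →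
      (∀ t ∉ T, ∀ l, Ge P 0 (b t l)) → (∀ a ∈ S, ∀ l, Ge P (-q) (y a l)) →
      (∀ a ∈ S, ∃ c : Fin N → K, (∀ t, c t ≠ 0 → t ∈ T) ∧ y a = ∑ t, c t • b t) →
      (∀ a ∈ S, ∀ t ∈ T, Ge P (g a - 1 - q) (φ a (b t))) →
      (∀ a ∈ S, ∀ a' ∈ S, a ≠ a' → Ge P (g a - 1 - q) (φ a (y a'))) →
      (∀ a ∈ S, Ge P (g a - 1 - q) (φ a (y a) + 1)) →
      ∑ a ∈ S, (g a - 1 - q) - T.card * q ≤ P.ord b.det := by
  classical
  induction S using Finset.induction_on with
  | empty =>
    intro b hb h1 h2 _ _ _ _ _
    rw [Finset.sum_empty, zero_sub]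
    refine (ge_det P b _ (fun i _ => if i ∈ T then -q else 0) (fun i j => ?_)
      (fun σ => ?_)).resolve_left hb
    · by_cases hi : i ∈ T
      · simp only [if_pos hi]; exact h1 i hi j
      · simp only [if_neg hi]; exact h2 i hi j
    · rw [Equiv.sum_comp σ (fun i => if i ∈ T then -q else 0)]
      simp
  | insert a S ha ih =>
    intro b hb h1 h2 h3 h4 h5 h6 h7
    rw [Finset.sum_insert ha]
    have hS : ∀ a' ∈ S, a' ∈ insert a S := fun a' h => Finset.mem_insert_of_mem h
    have haS : a ∈ insert a S := Finset.mem_insert_self _ _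
    by_cases hg : g a - 1 - q ≤ 0
    · have := ih b hb h1 h2 (fun a' h => h3 a' (hS a' h)) (fun a' h => h4 a' (hS a' h))
        (fun a' h => h5 a' (hS a' h)) (fun a' h a'' h' => h6 a' (hS a' h) a'' (hS a'' h'))
        (fun a' h => h7 a' (hS a' h))
      linarith
    · push Not at hg
      obtain ⟨c, hcT, hc⟩ := h4 a haS
      obtain ⟨t0, ht0⟩ : ∃ t0, ¬ Ge P 1 (c t0 * φ a (b t0)) := by
        by_contra hcon
        push Not at hcon
        have e1 : φ a (y a) = ∑ t, c t * φ a (b t) := by
          rw [hc, map_sum]
          exact Finset.sum_congr rfl fun t _ => by rw [map_smul, smul_eq_mul]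
        have e2 : Ge P 1 (φ a (y a)) := by
          rw [e1]
          exact Ge.sum _ _ fun t _ => hcon t
        have e3 := ((h7 a haS).mono (by omega : (1 : ℤ) ≤ g a - 1 - q)).sub e2
        rw [add_sub_cancel_left] at e3
        rcases e3 with e3 | e3
        · exact one_ne_zero e3
        · rw [P.ord_one] at e3
          omega
      have hne : c t0 * φ a (b t0) ≠ 0 := fun h => ht0 (Or.inl h)
      have hc0 : c t0 ≠ 0 := left_ne_zero_of_mul hne
      have hφ0 : φ a (b t0) ≠ 0 := right_ne_zero_of_mul hne
      have ht0T : t0 ∈ T := hcT t0 hc0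
      have hord : P.ord (c t0 * φ a (b t0)) < 1 := by
        by_contra h
        exact ht0 (Or.inr (not_lt.1 h))
      rw [P.ord_mul hc0 hφ0] at hord
      have h8 := (h5 a haS t0 ht0T).resolve_left hφ0
      obtain ⟨b1, hb1⟩ : ∃ b1 : Matrix (Fin N) (Fin N) K, b1 = b.updateRow t0 (y a) := ⟨_, rfl⟩
      have hdet : b1.det = c t0 * b.det := by
        rw [hb1, hc]
        exact det_update b t0 c
      have hrow0 : b1 t0 = y a := by
        rw [hb1]
        exact Matrix.updateRow_self
      have hrow : ∀ t, t ≠ t0 → b1 t = b t := by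
        intro t ht
        rw [hb1]
        exact Matrix.updateRow_ne ht
      have hb10 : b1.det ≠ 0 := by
        rw [hdet]; exact mul_ne_zero hc0 hb
      have h9 := ih b1 hb10 (fun t ht l => by
          by_cases h : t = t0
          · rw [h, hrow0]; exact h3 a haS l
          · rw [hrow t h]; exact h1 t ht l)
        (fun t ht l => by
          have h : t ≠ t0 := by
            rintro rfl
            exact ht ht0T
          rw [hrow t h]; exact h2 t ht l)
        (fun a' h => h3 a' (hS a' h))
        (fun a' h => by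
          obtain ⟨c', hc'T, hc'⟩ := h4 a' (hS a' h)
          refine ⟨fun t => if t = t0 then c' t0 / c t0 else c' t - c' t0 / c t0 * c t,
            fun t ht => ?_, ?_⟩
          · by_contra hcon
            have e0 : t ≠ t0 := by
              rintro rfl
              exact hcon ht0T
            apply ht
            have e1 : c' t = 0 := by
              by_contra h; exact hcon (hc'T t h)
            have e2 : c t = 0 := by
              by_contra h; exact hcon (hcT t h)
            simp only [if_neg e0, e1, e2, mul_zero, sub_zero]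
          · have e1 : y a - ∑ t ∈ Finset.univ.erase t0, c t • b t = c t0 • b t0 := by
              rw [hc, ← Finset.add_sum_erase _ _ (Finset.mem_univ t0), add_sub_cancel_right]
            have e2 : b t0 = (c t0)⁻¹ • (y a - ∑ t ∈ Finset.univ.erase t0, c t • b t) := by
              rw [e1, smul_smul, inv_mul_cancel₀ hc0, one_smul]
            rw [← Finset.add_sum_erase _ _ (Finset.mem_univ t0)]
            simp only [if_true, hrow0]
            have e3 : ∑ x ∈ Finset.univ.erase t0, (if x = t0 then c' t0 / c t0 else
                c' x - c' t0 / c t0 * c x) • b1 x = ∑ x ∈ Finset.univ.erase t0, c' x • b x -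
                (c' t0 / c t0) • ∑ x ∈ Finset.univ.erase t0, c x • b x := by
              rw [Finset.smul_sum, ← Finset.sum_sub_distrib]
              refine Finset.sum_congr rfl fun x hx => ?_
              have hx0 : x ≠ t0 := Finset.ne_of_mem_erase hx
              rw [if_neg hx0, hrow x hx0, sub_smul, mul_smul]
            rw [e3, hc', ← Finset.add_sum_erase _ _ (Finset.mem_univ t0)]
            conv_lhs => rw [e2]
            rw [smul_smul, smul_sub, ← div_eq_mul_inv]
            abel)
        (fun a' h t ht => by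
          by_cases h' : t = t0
          · rw [h', hrow0]
            exact h6 a' (hS a' h) a haS (by rintro rfl; exact ha h)
          · rw [hrow t h']; exact h5 a' (hS a' h) t ht)
        (fun a' h a'' h' => h6 a' (hS a' h) a'' (hS a'' h')) (fun a' h => h7 a' (hS a' h))
      rw [hdet, P.ord_mul hc0 hb] at h9
      linarith

end exch

end Pool.Agent.TH812.GV
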