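import Pool.Agent.TH145.MG.Dim

/-!
The space of the derivatives of a point of a variety of dimension at most `m` has dimension at
most `m + 1`.
-/

set_option autoImplicit false

open AlgebraicIndependent MvPolynomial Pool.Agent.W602.GT Pool.Agent.TH145.MG

namespace Pool.Agent.TH812.GV

variable {k K : Type} [Field k] [Field K] [Algebra k K]

/-- The derivative of `y` is a combination of the derivatives of the elements of `S`. -/
def Dep (k : Type) {K : Type} [Field k] [Field K] [Algebra k K] {ι : Type} (S : Finset ι)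
    (x : ι → K) (y : K) : Prop :=
  ∃ c : ι → K, ∀ D : Derivation ℤ K K, (∀ r : k, D (algebraMap k K r) = 0) →
    D y = ∑ i ∈ S, c i * D (x i)

variable {ι : Type} {S : Finset ι} {x : ι → K}

theorem Dep.const (r : k) : Dep k S x (algebraMap k K r) :=
  ⟨0, fun D hD => by simp [hD r]⟩

theorem Dep.gen {i : ι} (hi : i ∈ S) : Dep k S x (x i) := by
  classical
  refine ⟨fun j => if j = i then 1 else 0, fun D _ => ?_⟩
  rw [Finset.sum_eq_single i]
  · simp
  · intro j _ hj
    dsimp only
    rw [if_neg hj, zero_mul]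
  · intro h; exact absurd hi h

theorem Dep.add {y z : K} (hy : Dep k S x y) (hz : Dep k S x z) : Dep k S x (y + z) := by
  obtain ⟨c, hc⟩ := hy
  obtain ⟨c', hc'⟩ := hz
  refine ⟨c + c', fun D hD => ?_⟩
  rw [map_add, hc D hD, hc' D hD, ← Finset.sum_add_distrib]
  exact Finset.sum_congr rfl fun i _ => by rw [Pi.add_apply]; ring

theorem Dep.mul {y z : K} (hy : Dep k S x y) (hz : Dep k S x z) : Dep k S x (y * z) := by
  obtain ⟨c, hc⟩ := hy
  obtain ⟨c', hc'⟩ := hz
  refine ⟨fun i => y * c' i + z * c i, fun D hD => ?_⟩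
  rw [D.leibniz, hc D hD, hc' D hD, smul_eq_mul, smul_eq_mul, Finset.mul_sum, Finset.mul_sum,
    ← Finset.sum_add_distrib]
  exact Finset.sum_congr rfl fun i _ => by ring

theorem Dep.inv {y : K} (hy : Dep k S x y) : Dep k S x y⁻¹ := by
  by_cases h0 : y = 0
  · rw [h0, inv_zero, ← map_zero (algebraMap k K)]
    exact Dep.const 0
  obtain ⟨c, hc⟩ := hy
  refine ⟨fun i => -(y⁻¹ ^ 2) * c i, fun D hD => ?_⟩
  rw [Derivation.leibniz_inv, hc D hD, smul_eq_mul, Finset.mul_sum]
  exact Finset.sum_congr rfl fun i _ => by ring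

/-- The field of the dependent elements. -/
def depField (k : Type) {K : Type} [Field k] [Field K] [Algebra k K] {ι : Type} (S : Finset ι)
    (x : ι → K) : IntermediateField k K where
  carrier := {y | Dep k S x y}
  mul_mem' := fun {_ _} ha hb => Dep.mul ha hb
  one_mem' := by
    rw [← map_one (algebraMap k K)]; exact Dep.const 1
  add_mem' := fun {_ _} ha hb => Dep.add ha hb
  zero_mem' := by
    rw [← map_zero (algebraMap k K)]; exact Dep.const 0
  algebraMap_mem' := fun r => Dep.const r
  inv_mem' := fun _ h => Dep.inv h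

theorem Dep.of_alg [CharZero K] {y : K} (hy : IsAlgebraic (depField k S x) y) : Dep k S x y := by
  classical
  have hcz : CharZero (depField k S x) :=
    charZero_of_injective_algebraMap (algebraMap ℚ (depField k S x)).injective
  obtain ⟨p, hp⟩ : ∃ p, p = minpoly (depField k S x) y := ⟨_, rfl⟩
  have hp0 : Polynomial.aeval y p = 0 := by rw [hp]; exact minpoly.aeval _ _
  have hp1 : Polynomial.aeval y (Polynomial.derivative p) ≠ 0 := by
    rw [hp]
    exact (minpoly.irreducible hy.isIntegral).separable.aeval_derivative_ne_zero (minpoly.aeval _ _)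
  have hc : ∀ i, Dep k S x ((p.coeff i : depField k S x) : K) := fun i => (p.coeff i).2
  choose c hc using hc
  refine ⟨fun j => -(Polynomial.aeval y (Polynomial.derivative p))⁻¹ *
    ∑ i ∈ Finset.range (p.natDegree + 1), c i j * y ^ i, fun D hD => ?_⟩
  have h1 : D (Polynomial.aeval y p) = (∑ i ∈ Finset.range (p.natDegree + 1),
      D ((p.coeff i : depField k S x) : K) * y ^ i) +
        Polynomial.aeval y (Polynomial.derivative p) * D y := by
    rw [Polynomial.aeval_eq_sum_range, map_sum]
    have h2 : Polynomial.aeval y (Polynomial.derivative p) =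
        ∑ i ∈ Finset.range (p.natDegree + 1), ((p.coeff i : depField k S x) : K) *
          (i * y ^ (i - 1)) := by
      conv_lhs => rw [p.as_sum_range' (p.natDegree + 1) (Nat.lt_succ_self _)]
      rw [Polynomial.derivative_sum, map_sum]
      refine Finset.sum_congr rfl fun i _ => ?_
      rw [Polynomial.derivative_monomial, Polynomial.aeval_monomial, map_mul, map_natCast]
      change ((p.coeff i : depField k S x) : K) * _ * _ = _
      ring
    rw [h2, Finset.sum_mul, ← Finset.sum_add_distrib]
    refine Finset.sum_congr rfl fun i _ => ?_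
    rw [Algebra.smul_def, D.leibniz, D.leibniz_pow]
    change ((p.coeff i : depField k S x) : K) • (i • y ^ (i - 1) • D y) +
      y ^ i • D ((p.coeff i : depField k S x) : K) = _
    simp only [smul_eq_mul, nsmul_eq_mul]
    ring
  rw [hp0, map_zero] at h1
  have h3 : ∑ i ∈ Finset.range (p.natDegree + 1), D ((p.coeff i : depField k S x) : K) * y ^ i =
      ∑ j ∈ S, (∑ i ∈ Finset.range (p.natDegree + 1), c i j * y ^ i) * D (x j) := by
    have h4 : ∀ i ∈ Finset.range (p.natDegree + 1), D ((p.coeff i : depField k S x) : K) * y ^ i =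
        ∑ j ∈ S, c i j * y ^ i * D (x j) := by
      intro i _
      rw [hc i D hD, Finset.sum_mul]
      exact Finset.sum_congr rfl fun j _ => by ring
    rw [Finset.sum_congr rfl h4, Finset.sum_comm]
    exact Finset.sum_congr rfl fun j _ => by rw [Finset.sum_mul]
  rw [h3] at h1
  have h5 : D y = -(Polynomial.aeval y (Polynomial.derivative p))⁻¹ *
      ∑ j ∈ S, (∑ i ∈ Finset.range (p.natDegree + 1), c i j * y ^ i) * D (x j) := by
    field_simp
    linear_combination -h1
  rw [h5, Finset.mul_sum]
  exact Finset.sum_congr rfl fun j _ => by ring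

theorem Dep.of_cl [CharZero K] {y : K} (hy : y ∈ cl k (x '' S)) : Dep k S x y := by
  apply Dep.of_alg
  rw [mem_cl] at hy
  have h1 : IntermediateField.adjoin k (x '' S) ≤ depField k S x := by
    rw [IntermediateField.adjoin_le_iff]
    rintro _ ⟨i, hi, rfl⟩
    exact Dep.gen hi
  obtain ⟨p, hp0, hp⟩ := hy
  refine ⟨p.map (IntermediateField.inclusion h1).toRingHom,
    (Polynomial.map_ne_zero_iff (IntermediateField.inclusion h1).toRingHom.injective).2 hp0, ?_⟩
  rw [Polynomial.aeval_def, Polynomial.eval₂_map]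
  exact hp

/-- The space of the derivatives. -/
theorem exists_W [CharZero K] {n m : ℕ} {x : Fin (n + 1) → K} (hx : x ≠ 0)
    (h : Algebra.trdeg k (coords k x) ≤ m) : ∃ W : Submodule K (Fin (n + 1) → K),
      Module.finrank K W ≤ m + 1 ∧ x ∈ W ∧ ∀ D : Derivation ℤ K K,
        (∀ r : k, D (algebraMap k K r) = 0) → (fun l => D (x l)) ∈ W := by
  classical
  obtain ⟨l0, hl0⟩ := Function.ne_iff.1 hx
  have hl0' : x l0 ≠ 0 := hl0
  obtain ⟨x', hx'⟩ : ∃ x' : Fin (n + 1) → K, x' = (x l0)⁻¹ • x := ⟨_, rfl⟩
  have hxx : x = x l0 • x' := by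
    rw [hx', smul_smul, mul_inv_cancel₀ hl0', one_smul]
  have h1 : x' l0 = 1 := by
    rw [hx', Pi.smul_apply, smul_eq_mul, inv_mul_cancel₀ hl0']
  have hco : coords k x' = coords k x := by
    unfold coords
    congr 1
    ext z
    constructor
    · rintro ⟨i, j, hj, rfl⟩
      refine ⟨i, j, ?_, ?_⟩
      · intro h0
        apply hj
        rw [hx', Pi.smul_apply, h0, smul_zero]
      · rw [hx', Pi.smul_apply, Pi.smul_apply, smul_eq_mul, smul_eq_mul,
          mul_div_mul_left _ _ (inv_ne_zero hl0')]
    · rintro ⟨i, j, hj, rfl⟩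
      refine ⟨i, j, ?_, ?_⟩
      · rw [hx', Pi.smul_apply, smul_eq_mul]
        exact mul_ne_zero (inv_ne_zero hl0') hj
      · rw [hx', Pi.smul_apply, Pi.smul_apply, smul_eq_mul, smul_eq_mul,
          mul_div_mul_left _ _ (inv_ne_zero hl0')]
  obtain ⟨I, hI, hcl⟩ := exists_basis x' l0 h1 (by rw [hco]; exact h)
  choose c hc using fun l => Dep.of_cl (hcl l)
  obtain ⟨g, hg⟩ : ∃ g : Option I → Fin (n + 1) → K, g none = x' ∧
      ∀ i : I, g (some i) = fun l => c l i := ⟨fun o => match o with
        | none => x'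
        | some i => fun l => c l i, rfl, fun _ => rfl⟩
  refine ⟨Submodule.span K (Set.range g), ?_, ?_, fun D hD => ?_⟩
  · have h2 := finrank_range_le_card (R := K) g
    rw [Fintype.card_option, Fintype.card_coe] at h2
    exact h2.trans (by omega)
  · rw [hxx]
    exact Submodule.smul_mem _ _ (Submodule.subset_span ⟨none, hg.1⟩)
  · have h2 : (fun l => D (x l)) = x l0 • (∑ i : I, D (x' i) • g (some i)) + D (x l0) • x' := by
      funext l
      have h3 : x l = x l0 * x' l := by
        conv_lhs => rw [hxx]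
        rfl
      rw [h3, D.leibniz, hc l D hD]
      simp only [Pi.add_apply, Pi.smul_apply, smul_eq_mul, Finset.sum_apply, hg.2]
      rw [← Finset.sum_coe_sort I (fun i => c l i * D (x' i))]
      rw [Finset.mul_sum, Finset.mul_sum]
      have h4 : x' l * D (x l0) = D (x l0) * x' l := by ring
      rw [h4]
      congr 1
      exact Finset.sum_congr rfl fun i _ => by ring
    rw [h2]
    refine Submodule.add_mem _ (Submodule.smul_mem _ _ (Submodule.sum_mem _ fun i _ =>
      Submodule.smul_mem _ _ (Submodule.subset_span ⟨some i, rfl⟩)))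
      (Submodule.smul_mem _ _ (Submodule.subset_span ⟨none, hg.1⟩))

end Pool.Agent.TH812.GV
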