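import Pool.Agent.TH812.GV.Ext
import Pool.Agent.TH812.GV.Dim
import Pool.Agent.W602.GT.Der
import Pool.Agent.TH145.GH.Acl

/-!
Derivations dual to an algebraically independent family in a function field.
-/

set_option autoImplicit false

open FF Pool.Agent.W603.LV Pool.Agent.W603.PV Pool.Agent.TH145.GH Pool.Agent.TH145.MG
open AlgebraicIndependent

namespace Pool.Agent.TH812.GV

theorem der_sum_apply {K ι : Type} [Field K] (s : Finset ι) (D : ι → Derivation ℤ K K) (x : K) :
    (∑ i ∈ s, D i) x = ∑ i ∈ s, D i x := by
  classical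
  induction s using Finset.induction_on with
  | empty => simp
  | insert a s ha ih => rw [Finset.sum_insert ha, Finset.sum_insert ha, Derivation.add_apply, ih]

theorem exists_duals {k0 k F : Type} [Field k0] [Field k] [Field F] [Algebra k0 k] [Algebra k F]
    [Algebra k0 F] [IsScalarTower k0 k F] [IsAlgClosed k] [CharZero k] [IsFF k F] {β : Type}
    [Finite β] (c : β → F) (hc : AlgebraicIndependent k0 c) :
    ∃ D : β → Derivation ℤ F F, (∀ b, Good k (D b)) ∧
      (∀ b (r : k0), D b (algebraMap k0 F r) = 0) ∧
      ∀ b b', (b = b' → D b (c b') = 1) ∧ (b ≠ b' → D b (c b') = 0) := by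
  classical
  have hF : CharZero F := charZero_of_injective_algebraMap (algebraMap k F).injective
  have hk0 : CharZero k0 := by
    constructor
    intro a b hab
    have h1 := congrArg (algebraMap k0 k) hab
    rw [map_natCast, map_natCast] at h1
    exact Nat.cast_injective h1
  obtain ⟨t, ht⟩ := IsFF.exists_transcendental (k := k) (K := F)
  obtain ⟨ιy, y, hy⟩ := exists_isTranscendenceBasis' k0 k
  have hz := hy.sumElim_comp (IsFF.basis ht)
  obtain ⟨z, hzd⟩ : ∃ z : Unit ⊕ ιy → F, z = Sum.elim (fun _ => t) (algebraMap k F ∘ y) := ⟨_, rfl⟩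
  rw [← hzd] at hz
  -- the dual derivations of the basis
  have hE : ∀ j : Unit ⊕ ιy, ∃ E : Derivation k0 F F, ∀ i, E (z i) = if i = j then 1 else 0 :=
    fun j => Pool.Agent.W602.GT.exists_der z hz _
  choose E hE using hE
  have hSem : ∀ j, Sem k ((E j).restrictScalars ℤ) := by
    intro j
    obtain ⟨S, hS⟩ : ∃ S : Set F, S = Set.range (algebraMap k0 F) ∪
      Set.range (algebraMap k F ∘ y) := ⟨_, rfl⟩
    have hkr : IsAlgClosed (algebraMap k F).fieldRange :=
      IsAlgClosed.of_ringEquiv k _ (RingHom.rangeRestrictFieldEquiv (algebraMap k F))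
    have hSk : acl S ≤ (algebraMap k F).fieldRange := by
      refine acl_of_isAlgClosed hkr ?_
      rw [hS]
      rintro _ (⟨r, rfl⟩ | ⟨i, rfl⟩)
      · exact ⟨algebraMap k0 k r, (IsScalarTower.algebraMap_apply k0 k F r).symm⟩
      · exact ⟨y i, rfl⟩
    have hkS : ∀ r : k, algebraMap k F r ∈ acl S := by
      intro r
      rw [mem_acl]
      have h1 : IsAlgebraic (IntermediateField.adjoin k0 (Set.range y)) r := by
        have := hy.isAlgebraic_field
        exact this.isAlgebraic r
      obtain ⟨p, hp0, hp⟩ := h1
      have h2 : ∀ a : IntermediateField.adjoin k0 (Set.range y),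
          algebraMap k F (a : k) ∈ Subfield.closure S := by
        intro a
        have h3 : (a : k) ∈ Subfield.closure (Set.range (algebraMap k0 k) ∪ Set.range y) := by
          rw [← IntermediateField.adjoin_toSubfield]
          exact a.2
        have h4 : Subfield.closure (Set.range (algebraMap k0 k) ∪ Set.range y) ≤
            (Subfield.closure S).comap (algebraMap k F) := by
          rw [Subfield.closure_le]
          rintro _ (⟨r, rfl⟩ | ⟨i, rfl⟩)
          · refine Subfield.subset_closure ?_
            rw [hS]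
            exact Or.inl ⟨r, IsScalarTower.algebraMap_apply k0 k F r⟩
          · refine Subfield.subset_closure ?_
            rw [hS]
            exact Or.inr ⟨i, rfl⟩
        exact h4 h3
      let φ : IntermediateField.adjoin k0 (Set.range y) →+* Subfield.closure S :=
        { toFun := fun a => ⟨algebraMap k F (a : k), h2 a⟩
          map_one' := Subtype.ext (map_one (algebraMap k F))
          map_mul' := fun a b => Subtype.ext (map_mul (algebraMap k F) (a : k) b)
          map_zero' := Subtype.ext (map_zero (algebraMap k F))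
          map_add' := fun a b => Subtype.ext (map_add (algebraMap k F) (a : k) b) }
      refine ⟨p.map φ, (Polynomial.map_ne_zero_iff φ.injective).2 hp0, ?_⟩
      have h5 := congrArg (algebraMap k F) hp
      rw [map_zero, Polynomial.aeval_def, Polynomial.hom_eval₂] at h5
      rw [Polynomial.aeval_def, Polynomial.eval₂_map]
      exact h5
    intro r
    have h1 : (E j).restrictScalars ℤ (algebraMap k F r) ∈ acl S := by
      refine der_acl ((E j).restrictScalars ℤ) ?_ (hkS r)
      rw [hS]
      rintro s (⟨r, rfl⟩ | ⟨i, rfl⟩)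
      · change E j (algebraMap k0 F r) ∈ _
        rw [Derivation.map_algebraMap]
        exact zero_mem _
      · change E j ((algebraMap k F ∘ y) i) ∈ _
        have h2 : (algebraMap k F ∘ y) i = z (Sum.inr i) := by rw [hzd]; rfl
        rw [h2, hE]
        split_ifs
        · exact one_mem _
        · exact zero_mem _
    obtain ⟨r', hr'⟩ := hSk h1
    exact ⟨r', hr'.symm⟩
  -- finitely many elements of the basis suffice
  have hJ : ∃ J : Finset (Unit ⊕ ιy), ∀ b, c b ∈ cl k0 (z '' J) := by
    have h1 : Set.range c ⊆ (matroid k0 F).closure (Set.range z) := by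
      rintro _ ⟨b, rfl⟩
      rw [← mem_cl_iff, mem_cl]
      have := hz.isAlgebraic_field
      exact this.isAlgebraic _
    obtain ⟨I, hI, hIf, -, hIc⟩ :=
      Matroid.exists_subset_finite_closure_of_subset_closure (Set.finite_range c) h1
    have := hIf.fintype
    choose f hf using fun i : I => hI i.2
    refine ⟨Finset.univ.image f, fun b => ?_⟩
    rw [mem_cl_iff]
    have h2 : I ⊆ z '' (Finset.univ.image f : Finset (Unit ⊕ ιy)) := by
      intro w hw
      exact ⟨f ⟨w, hw⟩, Finset.mem_coe.2 (Finset.mem_image_of_mem _ (Finset.mem_univ _)),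
        hf ⟨w, hw⟩⟩
    exact (matroid k0 F).closure_mono h2 (hIc ⟨b, rfl⟩)
  obtain ⟨J, hJ⟩ := hJ
  choose u hu using fun b => Dep.of_cl (hJ b)
  -- the dual derivations of the family
  have hD0 : ∀ b : β, ∃ D : Derivation k0 F F, ∀ b', D (c b') = if b = b' then 1 else 0 := by
    intro b
    have h1 : AlgebraicIndepOn k0 id (Set.range c) := hc.to_subtype_range
    obtain ⟨s, hs, hsb⟩ := exists_isTranscendenceBasis_superset h1
    obtain ⟨D, hD⟩ := Pool.Agent.W602.GT.exists_der (fun w : s => (w : F)) hsb
      (fun w => if (w : F) = c b then 1 else 0)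
    refine ⟨D, fun b' => ?_⟩
    have h2 := hD ⟨c b', hs ⟨b', rfl⟩⟩
    rw [h2]
    by_cases h : b = b'
    · rw [h, if_pos rfl, if_pos rfl]
    · rw [if_neg h, if_neg fun h' => h (hc.injective h').symm]
  choose D0 hD0 using hD0
  refine ⟨fun b => ∑ j ∈ J, D0 b (z j) • (E j).restrictScalars ℤ, fun b => ?_, fun b r => ?_,
    fun b b' => ?_⟩
  · exact Good.sum _ _ fun j _ => (Good.of_sem (hSem j)).smul _
  · rw [der_sum_apply]
    refine Finset.sum_eq_zero fun j _ => ?_
    rw [Derivation.smul_apply]
    change D0 b (z j) • E j (algebraMap k0 F r) = 0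
    rw [Derivation.map_algebraMap, smul_zero]
  · have h1 : (∑ j ∈ J, D0 b (z j) • (E j).restrictScalars ℤ) (c b') = D0 b (c b') := by
      have h2 := hu b' ((D0 b).restrictScalars ℤ) (fun r => (D0 b).map_algebraMap r)
      have h3 : D0 b (c b') = ∑ i ∈ J, u b' i * D0 b (z i) := h2
      rw [h3, der_sum_apply]
      refine Finset.sum_congr rfl fun j hj => ?_
      have h4 := hu b' ((E j).restrictScalars ℤ) (fun r => (E j).map_algebraMap r)
      have h5 : ∑ i ∈ J, u b' i * E j (z i) = u b' j := by
        rw [Finset.sum_eq_single j]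
        · rw [hE, if_pos rfl, mul_one]
        · intro i _ hij
          rw [hE, if_neg hij, mul_zero]
        · intro h; exact absurd hj h
      rw [Derivation.smul_apply, h4]
      change D0 b (z j) • ∑ i ∈ J, u b' i * E j (z i) = _
      rw [h5, smul_eq_mul, mul_comm]
    rw [h1, hD0]
    exact ⟨fun h => if_pos h, fun h => if_neg h⟩

end Pool.Agent.TH812.GV
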