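import Pool.Agent.TH812.GV.Glob
import Pool.Agent.W603.PV.Disc

/-!
The loss of derivations in finite extensions of a function field.
-/

set_option autoImplicit false

open FF Pool.Agent.W603.LV Pool.Agent.W603.PV Pool.Agent.TH145.GH

namespace Pool.Agent.TH812.GV

variable {k F : Type} [Field k] [Field F] [Algebra k F] [IsAlgClosed k] [CharZero k] [IsFF k F]

/-- The loss of an extension of a derivation that preserves the constants. -/
theorem loss_ext {D : Derivation ℤ F F} {q : Place k F → ℤ} (hq0 : ∀ v, 0 ≤ q v)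
    (hq : ∀ v f, Ge v 0 f → Ge v (-q v) (D f)) {L : Type} [Field L] [Algebra k L] [Algebra F L]
    [IsScalarTower k F L] [IsFF k L] {D' : Derivation ℤ L L} (hS : Sem k D')
    (hD' : ∀ x, D' (algebraMap F L x) = algebraMap F L (D x)) (P : Place k L) {f : L}
    (hf : Ge P 0 f) : Ge P (-(((ram F P : ℤ) - 1) + ram F P * q (under F P))) (D' f) := by
  have he0 := (ram_spec (F := F) P).1
  have hqv := hq0 (under F P)
  have hnn : 0 ≤ ((ram F P : ℤ) - 1) + ram F P * q (under F P) := by
    have h1 : (1 : ℤ) ≤ ram F P := by exact_mod_cast he0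
    nlinarith
  have hπ := ord_unif P
  set π := unif P with hπd
  refine reg_of_unif P hπ hS (by omega) ?_ hf
  by_cases hDπ : D' π = 0
  · exact Or.inl hDπ
  right
  by_contra hcon
  push Not at hcon
  have hπ0 : π ≠ 0 := by
    intro h
    rw [h, P.ord_zero] at hπ; omega
  obtain ⟨x, hx0, hx⟩ := (under F P).surj
  have hxP : P.ord (algebraMap F L x) = ram F P := by
    rw [ord_under, hx, mul_one]
  have hxL : algebraMap F L x ≠ 0 := by rw [Ne, map_eq_zero]; exact hx0
  obtain ⟨u, hu⟩ : ∃ u, u = algebraMap F L x / π ^ ram F P := ⟨_, rfl⟩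
  have hux : algebraMap F L x = π ^ ram F P * u := by
    rw [hu, mul_div_cancel₀ _ (pow_ne_zero _ hπ0)]
  have hu0 : u ≠ 0 := by
    rintro rfl
    rw [mul_zero] at hux
    exact hxL hux
  have huo : P.ord u = 0 := by
    have h1 := congrArg P.ord hux
    rw [P.ord_mul (pow_ne_zero _ hπ0) hu0, P.ord_pow, hπ, hxP] at h1
    linarith
  -- the derivative of `u`
  have hDu : Ge P (P.ord (D' π)) (D' u) :=
    reg_of_unif P hπ hS (by omega) (Or.inr le_rfl) (Or.inr huo.ge)
  -- the derivative of `x`
  have hDx : Ge P (-(ram F P * q (under F P))) (D' (algebraMap F L x)) := by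
    rw [hD']
    rcases hq (under F P) x (Or.inr (by omega)) with h | h
    · left; rw [h, map_zero]
    · right
      rw [ord_under]
      have : (0 : ℤ) ≤ ram F P := by positivity
      nlinarith
  have e : ((ram F P : ℕ) : L) * (u * (π ^ (ram F P - 1) * D' π)) =
      D' (algebraMap F L x) - π ^ ram F P * D' u := by
    rw [hux, D'.leibniz, D'.leibniz_pow]
    simp only [smul_eq_mul, nsmul_eq_mul]
    ring
  have hramk : P.ord ((ram F P : ℕ) : L) = 0 ∧ ((ram F P : ℕ) : L) ≠ 0 := by
    have h1 : ((ram F P : ℕ) : k) ≠ 0 := by exact_mod_cast he0.ne'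
    have h2 : algebraMap k L ((ram F P : ℕ) : k) = ((ram F P : ℕ) : L) := map_natCast _ _
    rw [← h2]
    exact ⟨P.ord_const h1, by rw [Ne, map_eq_zero]; exact h1⟩
  have hne : ((ram F P : ℕ) : L) * (u * (π ^ (ram F P - 1) * D' π)) ≠ 0 :=
    mul_ne_zero hramk.2 (mul_ne_zero hu0 (mul_ne_zero (pow_ne_zero _ hπ0) hDπ))
  have ho : P.ord (((ram F P : ℕ) : L) * (u * (π ^ (ram F P - 1) * D' π))) =
      (ram F P : ℤ) - 1 + P.ord (D' π) := by
    rw [P.ord_mul hramk.2 (mul_ne_zero hu0 (mul_ne_zero (pow_ne_zero _ hπ0) hDπ)), hramk.1,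
      P.ord_mul hu0 (mul_ne_zero (pow_ne_zero _ hπ0) hDπ), huo,
      P.ord_mul (pow_ne_zero _ hπ0) hDπ, P.ord_pow, hπ]
    push_cast [Nat.cast_sub he0]
    ring
  have h1 : Ge P (ram F P : ℤ) (π ^ ram F P) := by
    right; rw [P.ord_pow, hπ, mul_one]
  have h2 : Ge P ((ram F P : ℤ) + P.ord (D' π)) (π ^ ram F P * D' u) := h1.mul hDu
  have h3 : Ge P ((ram F P : ℤ) + P.ord (D' π)) (D' (algebraMap F L x)) :=
    hDx.mono (by omega)
  have h4 := h3.sub h2
  rw [← e] at h4
  have h5 := h4.resolve_left hne
  rw [ho] at h5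
  omega

/-- A derivation of `F` with extensions to the finite extensions of `F` whose loss is bounded in
terms of the ramification. -/
def Good (k : Type) {F : Type} [Field k] [Field F] [Algebra k F] [IsAlgClosed k] [CharZero k]
    [IsFF k F] (D : Derivation ℤ F F) : Prop :=
  ∃ q : Place k F → ℤ, (∀ v, 0 ≤ q v) ∧ {v | q v ≠ 0}.Finite ∧
    ∀ (L : Type) [Field L] [Algebra k L] [Algebra F L] [IsScalarTower k F L]
      [FiniteDimensional F L] [IsFF k L], ∃ D' : Derivation ℤ L L,
        (∀ x, D' (algebraMap F L x) = algebraMap F L (D x)) ∧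
        ∀ (P : Place k L) (f : L), Ge P 0 f →
          Ge P (-(((ram F P : ℤ) - 1) + ram F P * q (under F P))) (D' f)

theorem Good.zero : Good k (0 : Derivation ℤ F F) :=
  ⟨fun _ => 0, fun _ => le_rfl, by simp, fun L _ _ _ _ _ _ => ⟨0, fun x => by simp,
    fun P f _ => Or.inl rfl⟩⟩

theorem Good.add {D E : Derivation ℤ F F} (hD : Good k D) (hE : Good k E) : Good k (D + E) := by
  obtain ⟨q, hq0, hqf, hq⟩ := hD
  obtain ⟨r, hr0, hrf, hr⟩ := hE
  refine ⟨fun v => q v + r v, fun v => add_nonneg (hq0 v) (hr0 v), ?_, ?_⟩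
  · refine (hqf.union hrf).subset fun v hv => ?_
    by_contra hcon
    simp only [Set.mem_union, Set.mem_ofPred_eq, not_or, not_not] at hcon
    apply hv
    dsimp only
    rw [hcon.1, hcon.2, add_zero]
  · intro L _ _ _ _ _ _
    obtain ⟨D', hD', hDl⟩ := hq L
    obtain ⟨E', hE', hEl⟩ := hr L
    refine ⟨D' + E', fun x => by
      rw [Derivation.add_apply, Derivation.add_apply, hD', hE', map_add], fun P f hf => ?_⟩
    have h0 : (0 : ℤ) ≤ ram F P := by positivity
    have h1 := hq0 (under F P)
    have h2 := hr0 (under F P)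
    rw [Derivation.add_apply]
    refine Ge.add ((hDl P f hf).mono ?_) ((hEl P f hf).mono ?_)
    · dsimp only
      nlinarith
    · dsimp only
      nlinarith

theorem Good.smul {D : Derivation ℤ F F} (hD : Good k D) (a : F) : Good k (a • D) := by
  obtain ⟨q, hq0, hqf, hq⟩ := hD
  refine ⟨fun v => q v + max (-v.ord a) 0, fun v => add_nonneg (hq0 v) (le_max_right _ _), ?_, ?_⟩
  · refine (hqf.union (finite_support (k := k) a)).subset fun v hv => ?_
    by_contra hcon
    simp only [Set.mem_union, Set.mem_ofPred_eq, not_or, not_not] at hcon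
    apply hv
    dsimp only
    rw [hcon.1, hcon.2]
    simp
  · intro L _ _ _ _ _ _
    obtain ⟨D', hD', hDl⟩ := hq L
    refine ⟨algebraMap F L a • D', fun x => by
      rw [Derivation.smul_apply, Derivation.smul_apply, hD', smul_eq_mul, smul_eq_mul, map_mul],
      fun P f hf => ?_⟩
    rw [Derivation.smul_apply, smul_eq_mul]
    by_cases ha : a = 0
    · left; rw [ha, map_zero, zero_mul]
    have h0 : (0 : ℤ) ≤ ram F P := by positivity
    have h1 : Ge P (ram F P * (under F P).ord a) (algebraMap F L a) := by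
      right
      rw [ord_under]
    refine (h1.mul (hDl P f hf)).mono ?_
    have h2 := le_max_left (-(under F P).ord a) 0
    dsimp only
    nlinarith

theorem Good.sum {ι : Type} (s : Finset ι) (D : ι → Derivation ℤ F F)
    (h : ∀ i ∈ s, Good k (D i)) : Good k (∑ i ∈ s, D i) := by
  classical
  induction s using Finset.induction_on with
  | empty => rw [Finset.sum_empty]; exact Good.zero
  | insert a s ha ih =>
    rw [Finset.sum_insert ha]
    exact (h a (Finset.mem_insert_self _ _)).add
      (ih fun i hi => h i (Finset.mem_insert_of_mem hi))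

theorem Good.neg {D : Derivation ℤ F F} (hD : Good k D) : Good k (-D) := by
  have h := hD.smul (-1)
  rwa [neg_one_smul] at h

/-- A derivation over a subfield that preserves the constants. -/
theorem Good.of_sem {k0 : Type} [Field k0] [Algebra k0 F] {E : Derivation k0 F F}
    (hE : Sem k (E.restrictScalars ℤ)) : Good k (E.restrictScalars ℤ) := by
  have hF : CharZero F := charZero_of_injective_algebraMap (algebraMap k F).injective
  obtain ⟨q, hq0, hqf, hq⟩ := exists_loss hE
  refine ⟨q, hq0, hqf, ?_⟩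
  intro L _ _ _ _ _ _
  let _ : Algebra k0 L := ((algebraMap F L).comp (algebraMap k0 F)).toAlgebra
  have hst : IsScalarTower k0 F L := IsScalarTower.of_algebraMap_eq fun _ => rfl
  obtain ⟨D', hD'⟩ := exists_ext_der (L := L) E
  refine ⟨D'.restrictScalars ℤ, hD', fun P f hf => ?_⟩
  refine loss_ext (D := E.restrictScalars ℤ) hq0 hq ?_ hD' P hf
  intro c
  obtain ⟨c', hc'⟩ := hE c
  refine ⟨c', ?_⟩
  rw [IsScalarTower.algebraMap_apply k F L, IsScalarTower.algebraMap_apply k F L, ← hc']
  exact hD' _

/-- The degree of the discriminant is at most the canonical degree plus a constant multiple of the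
degree of the extension. -/
theorem disc_le_canDeg : ∃ C : ℕ, ∀ (L : Type) [Field L] [Algebra k L] [Algebra F L]
    [IsScalarTower k F L] [FiniteDimensional F L] [IsFF k L], disc k F L ≤ canDeg k L +
      C * Module.finrank F L := by
  classical
  have hF : CharZero F := charZero_of_injective_algebraMap (algebraMap k F).injective
  obtain ⟨D, hD⟩ := exists_der (k := k) (K := F)
  set V : Finset (Place k F) := (vo_finite hD).toFinset with hV
  have hVmem : ∀ v, vo v D ≠ 0 → v ∈ V := fun v hv => by simp [hV, hv]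
  refine ⟨(∑ v ∈ V, |vo v D| * hgt k (unif v)).toNat, ?_⟩
  intro L _ _ _ _ _ _
  obtain ⟨D', hDD'⟩ := exists_ext_der (L := L) D
  have hD' : D' ≠ 0 := by
    rintro rfl
    apply hD
    ext x
    have := hDD' x
    rw [Derivation.coe_zero, Pi.zero_apply, eq_comm, map_eq_zero] at this
    rw [this]; rfl
  set T : Finset (Place k L) := (vo_finite hD').toFinset ∪ (ram_finite (F := F)).toFinset ∪
    (finite_over_set (L := L) (vo_finite hD)).toFinset with hT
  have h1 := canDeg_finset hD' T fun P hP => by simp [hT, hP]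
  have h2 : disc k F L = ∑ P ∈ T, ((ram F P : ℤ) - 1) := by
    unfold disc
    rw [finsum_eq_sum_of_support_subset (s := T)]
    intro P hP
    have hP' : (ram F P : ℤ) - 1 ≠ 0 := hP
    simp only [hT, Finset.coe_union, Set.Finite.coe_toFinset, Set.mem_union, Set.mem_ofPred_eq]
    exact Or.inl (Or.inr hP')
  have h3 : canDeg k L = ∑ P ∈ T, ((ram F P : ℤ) - 1) -
      ∑ P ∈ T, (ram F P : ℤ) * vo (under F P) D := by
    rw [← Finset.sum_sub_distrib]
    have h4 : canDeg k L = - ∑ P ∈ T, vo P D' := by rw [h1, neg_neg]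
    rw [h4, ← Finset.sum_neg_distrib]
    refine Finset.sum_congr rfl fun P _ => ?_
    rw [vo_under hD hD' hDD' P]
    ring
  have h5 : ∑ P ∈ T, (ram F P : ℤ) * vo (under F P) D ≤
      Module.finrank F L * ∑ v ∈ V, |vo v D| * hgt k (unif v) := by
    have h6 : ∑ P ∈ T, (ram F P : ℤ) * vo (under F P) D ≤
        ∑ P ∈ T.filter (fun P => under F P ∈ V), (ram F P : ℤ) * |vo (under F P) D| := by
      rw [Finset.sum_filter]
      refine Finset.sum_le_sum fun P _ => ?_
      split_ifs with h
      · have h7 := le_abs_self (vo (under F P) D)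
        have h8 : (0 : ℤ) ≤ ram F P := by positivity
        nlinarith
      · have h7 : vo (under F P) D = 0 := by
          by_contra hcon
          exact h (hVmem _ hcon)
        rw [h7]; simp
    refine h6.trans ?_
    rw [← Finset.sum_fiberwise_of_maps_to (t := V) (g := fun P => under F P)
      (fun P hP => (Finset.mem_filter.1 hP).2), Finset.mul_sum]
    refine Finset.sum_le_sum fun v _ => ?_
    have h9 : ∑ P ∈ (T.filter (fun P => under F P ∈ V)).filter (fun P => under F P = v),
        (ram F P : ℤ) * |vo (under F P) D| = (∑ P ∈ (T.filter (fun P => under F P ∈ V)).filter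
          (fun P => under F P = v), (ram F P : ℤ)) * |vo v D| := by
      rw [Finset.sum_mul]
      refine Finset.sum_congr rfl fun P hP => ?_
      rw [(Finset.mem_filter.1 hP).2]
    rw [h9]
    have h10 := sum_ram_le (L := L) v (ord_unif v) ((T.filter (fun P => under F P ∈ V)).filter
      (fun P => under F P = v)) fun P hP => (Finset.mem_filter.1 hP).2
    have h11 := mul_le_mul_of_nonneg_right h10 (abs_nonneg (vo v D))
    linarith
  have h12 : (0 : ℤ) ≤ ∑ v ∈ V, |vo v D| * hgt k (unif v) :=
    Finset.sum_nonneg fun v _ => mul_nonneg (abs_nonneg _) (hgt_nonneg _)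
  rw [Int.toNat_of_nonneg h12, h2, h3]
  linarith

/-- The total loss. -/
theorem sum_loss {q : Place k F → ℤ} (hq0 : ∀ v, 0 ≤ q v) (hqf : {v | q v ≠ 0}.Finite) :
    ∃ C : ℕ, ∀ (L : Type) [Field L] [Algebra k L] [Algebra F L]
    [IsScalarTower k F L] [FiniteDimensional F L] [IsFF k L],
      {P : Place k L | ((ram F P : ℤ) - 1) + ram F P * q (under F P) ≠ 0}.Finite ∧
      ∑ᶠ P : Place k L, (((ram F P : ℤ) - 1) + ram F P * q (under F P)) ≤
        canDeg k L + C * Module.finrank F L := by
  classical
  obtain ⟨C1, hC1⟩ := disc_le_canDeg (k := k) (F := F)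
  refine ⟨C1 + (∑ v ∈ hqf.toFinset, q v * hgt k (unif v)).toNat, ?_⟩
  intro L _ _ _ _ _ _
  have h1 : {P : Place k L | (ram F P : ℤ) - 1 ≠ 0}.Finite := ram_finite (F := F)
  have h2 : {P : Place k L | (ram F P : ℤ) * q (under F P) ≠ 0}.Finite := by
    refine (finite_over_set (L := L) hqf).subset fun P hP => ?_
    exact right_ne_zero_of_mul hP
  have h3 : ∑ᶠ P : Place k L, (ram F P : ℤ) * q (under F P) ≤
      Module.finrank F L * ∑ v ∈ hqf.toFinset, q v * hgt k (unif v) := by
    rw [finsum_eq_sum_of_support_subset (s := h2.toFinset) _ (fun P hP => by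
      rw [Set.Finite.coe_toFinset]; exact hP)]
    rw [← Finset.sum_fiberwise_of_maps_to (t := hqf.toFinset) (g := fun P => under F P)
      (fun P hP => by
        rw [Set.Finite.mem_toFinset] at hP ⊢
        exact right_ne_zero_of_mul hP), Finset.mul_sum]
    refine Finset.sum_le_sum fun v _ => ?_
    have h9 : ∑ P ∈ h2.toFinset.filter (fun P => under F P = v), (ram F P : ℤ) *
        q (under F P) = (∑ P ∈ h2.toFinset.filter (fun P => under F P = v),
          (ram F P : ℤ)) * q v := by
      rw [Finset.sum_mul]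
      refine Finset.sum_congr rfl fun P hP => ?_
      rw [(Finset.mem_filter.1 hP).2]
    rw [h9]
    have h10 := sum_ram_le (L := L) v (ord_unif v) (h2.toFinset.filter
      (fun P => under F P = v)) fun P hP => (Finset.mem_filter.1 hP).2
    have h11 := mul_le_mul_of_nonneg_right h10 (hq0 v)
    linarith
  refine ⟨(h1.union h2).subset fun P hP => ?_, ?_⟩
  · by_contra hcon
    simp only [Set.mem_union, Set.mem_ofPred_eq, not_or, not_not] at hcon
    apply hP
    rw [hcon.1, hcon.2, add_zero]
  · rw [finsum_add_distrib h1 h2]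
    have h4 := hC1 L
    unfold disc at h4
    have h5 : (0 : ℤ) ≤ ∑ v ∈ hqf.toFinset, q v * hgt k (unif v) :=
      Finset.sum_nonneg fun v _ => mul_nonneg (hq0 v) (hgt_nonneg _)
    have h6 : ((C1 + (∑ v ∈ hqf.toFinset, q v * hgt k (unif v)).toNat : ℕ) : ℤ) =
        C1 + ∑ v ∈ hqf.toFinset, q v * hgt k (unif v) := by
      rw [Nat.cast_add, Int.toNat_of_nonneg h5]
    rw [h6, add_mul]
    linarith

end Pool.Agent.TH812.GV
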