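import Pool.Agent.TH812.GV.Ineq

/-!
The height inequality for points of complete intersections and of their complements.
-/

set_option autoImplicit false

open MvPolynomial FF Pool.Agent.W603.LV Pool.Agent.W603.PV Pool.Agent.TH145.GH

namespace Pool.Agent.TH812.GV

variable {k K : Type} [Field k] [Field K] [Algebra k K] {n : ℕ} {α : Type}

section sel

variable {F : α → MvPolynomial (Fin (n + 1)) K} {d : α → ℕ}
    {D : α → (Fin (n + 1) →₀ ℕ) → Derivation ℤ K K} {ep : α → (Fin (n + 1) →₀ ℕ) → ℕ}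
    {q : Place k K → ℤ} {x : Fin (n + 1) → K} {l0 : Fin (n + 1)}

omit [Field k] [Algebra k K] in
theorem span_gw : Submodule.span K (Set.range (gw d D x l0)) = ⊤ := by
  rw [eq_top_iff, ← (Pi.basisFun K (Fin (n + 1))).span_eq, Submodule.span_le]
  rintro _ ⟨i, rfl⟩
  refine Submodule.subset_span ⟨Gn.e i, ?_⟩
  rw [Pi.basisFun_apply]
  rfl

omit [Field k] [Algebra k K] in
theorem sel_x (hx : x ≠ 0) {v : Fin (n + 1) → Gn α n}
    (hdet : (Matrix.of fun t => gw d D x l0 (v t)).det ≠ 0)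
    (hv : ∀ g (c : Fin (n + 1) → K), gw d D x l0 g = ∑ s, c s • gw d D x l0 (v s) →
      ∀ s, c s ≠ 0 → (v s).lev ≤ g.lev) : ∃ t, v t = Gn.x := by
  obtain ⟨c, hc⟩ := exists_coord hdet (gw d D x l0 Gn.x)
  have hc' : gw d D x l0 Gn.x = ∑ s, c s • gw d D x l0 (v s) := hc
  obtain ⟨s, hs⟩ : ∃ s, c s ≠ 0 := by
    by_contra hcon
    push Not at hcon
    apply hx
    have h1 : gw d D x l0 (Gn.x : Gn α n) = x := rfl
    rw [← h1, hc']
    exact Finset.sum_eq_zero fun s _ => by rw [hcon s, zero_smul]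
  refine ⟨s, ?_⟩
  have h2 := hv _ c hc' s hs
  rcases hvs : v s with _ | ⟨a, M, i, j⟩ | a | i
  · rfl
  all_goals
    rw [hvs] at h2
    exact absurd h2 (by simp [Gn.lev])

theorem sel_v (hS : Sys k F d D ep q) (hx : x l0 ≠ 0) {v : Fin (n + 1) → Gn α n}
    (hdet : (Matrix.of fun t => gw d D x l0 (v t)).det ≠ 0)
    (hv : ∀ g (c : Fin (n + 1) → K), gw d D x l0 g = ∑ s, c s • gw d D x l0 (v s) →
      ∀ s, c s ≠ 0 → (v s).lev ≤ g.lev) (a : α) (ha : eval x (F a) = 0) :
    ∃ t, v t = Gn.v a := by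
  classical
  obtain ⟨c, hc⟩ := exists_coord hdet (gw d D x l0 (Gn.v a))
  have hc' : gw d D x l0 (Gn.v a) = ∑ s, c s • gw d D x l0 (v s) := hc
  have h1 : dL (F a) x (gw d D x l0 (Gn.v a)) = -1 := by
    rw [dL_v hS.hom hS.dual hx a a ha, if_pos rfl]
  rw [hc', map_sum] at h1
  obtain ⟨s, hs⟩ : ∃ s, dL (F a) x (c s • gw d D x l0 (v s)) ≠ 0 := by
    by_contra hcon
    push Not at hcon
    rw [Finset.sum_eq_zero fun s _ => hcon s] at h1
    exact zero_ne_one (neg_eq_zero.1 h1.symm).symm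
  rw [map_smul, smul_eq_mul] at hs
  have hs1 : c s ≠ 0 := left_ne_zero_of_mul hs
  have hs2 := right_ne_zero_of_mul hs
  have h2 := hv _ c hc' s hs1
  refine ⟨s, ?_⟩
  rcases hvs : v s with _ | ⟨b, M, i, j⟩ | b | i
  · exfalso
    apply hs2
    rw [hvs]
    change dL (F a) x x = 0
    rw [dL_x hS.hom, ha, mul_zero]
  · exfalso
    apply hs2
    rw [hvs]
    by_cases hM : M.degree + 1 = d b
    · rw [dL_de hS.hom hS.dual b a hM, ha, map_zero, map_zero, mul_zero, mul_zero, sub_zero,
        mul_zero]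
      simp
    · rw [de_zero hM, map_zero]
  · by_cases hab : b = a
    · rw [hab]
    · exfalso
      apply hs2
      rw [hvs, dL_v hS.hom hS.dual hx b a ha, if_neg hab]
  · rw [hvs] at h2
    exact absurd h2 (by simp [Gn.lev])

omit [Field k] [Algebra k K] in
theorem card_T {v : Fin (n + 1) → Gn α n}
    (hdet : (Matrix.of fun t => gw d D x l0 (v t)).det ≠ 0) {m : ℕ}
    (W : Submodule K (Fin (n + 1) → K)) (hWm : Module.finrank K W ≤ m + 1) (hxW : x ∈ W)
    (hDW : ∀ a (I : Fin (n + 1) →₀ ℕ), I.degree = d a → (fun l => D a I (x l)) ∈ W) :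
    (Finset.univ.filter fun t => (v t).lev ≤ 2).card ≤ m + 1 := by
  classical
  have hW : ∀ g : Gn α n, g.lev ≤ 2 → gw d D x l0 g ∈ W := by
    intro g hg
    rcases g with _ | ⟨a, M, i, j⟩ | a | i
    · exact hxW
    · by_cases hM : M.degree + 1 = d a
      · have h2 : gw d D x l0 (Gn.de a M i j) =
            x j • (fun l => D a (M + Finsupp.single i 1) (x l)) -
              x i • (fun l => D a (M + Finsupp.single j 1) (x l)) := by
          funext l
          simp only [gw, if_pos hM, Pi.sub_apply, Pi.smul_apply, smul_eq_mul]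
        rw [h2]
        exact Submodule.sub_mem _
          (Submodule.smul_mem _ _ (hDW _ _ (by rw [map_add, Finsupp.degree_single, hM])))
          (Submodule.smul_mem _ _ (hDW _ _ (by rw [map_add, Finsupp.degree_single, hM])))
      · rw [de_zero hM]; exact zero_mem _
    · have h2 : gw d D x l0 (Gn.v a) =
          (x l0 ^ d a)⁻¹ • (fun l => D a (Finsupp.single l0 (d a)) (x l)) := by
        funext l
        simp only [gw, Pi.smul_apply, smul_eq_mul]
      rw [h2]
      exact Submodule.smul_mem _ _ (hDW _ _ (by rw [Finsupp.degree_single]))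
    · exact absurd hg (by simp [Gn.lev])
  obtain ⟨T, hT⟩ : ∃ T : Finset (Fin (n + 1)), T = Finset.univ.filter fun t => (v t).lev ≤ 2 :=
    ⟨_, rfl⟩
  have hli := li_of_det hdet
  have hTm : ∀ t ∈ T, (v t).lev ≤ 2 := fun t h => by
    rw [hT, Finset.mem_filter] at h
    exact h.2
  have h1 : LinearIndependent K fun t : T =>
      (⟨gw d D x l0 (v t), hW _ (hTm t t.2)⟩ : W) := by
    apply LinearIndependent.of_comp W.subtype
    exact hli.comp (Subtype.val : T → Fin (n + 1)) Subtype.val_injective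
  have h2 := h1.fintype_card_le_finrank
  rw [Fintype.card_coe] at h2
  rw [← hT]
  exact h2.trans hWm

open Classical in
omit [Field k] [Algebra k K] in
/-- The total weight. -/
theorem sum_wt [Fintype α] {v : Fin (n + 1) → Gn α n} {t0 : Fin (n + 1)} (ht0 : v t0 = Gn.x)
    {m : ℕ} (hT : (Finset.univ.filter fun t => (v t).lev ≤ 2).card ≤ m + 1)
    (S : Finset α) (hS : ∀ a ∉ S, ∃ t, v t = Gn.v a) :
    ∑ t, (v t).wt d ≤ 2 * (m + 1) - 1 - ∑ a ∈ Sᶜ, ((d a : ℤ) + 1) := by
  have h1 : ∀ g : Gn α n, g.wt d = 2 * (if g.lev ≤ 2 then 1 else 0) - (if g = Gn.x then 1 else 0) -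
      ∑ a, (if g = Gn.v a then ((d a : ℤ) + 1) else 0) := by
    intro g
    rcases g with _ | ⟨a, M, i, j⟩ | a | i
    · simp [Gn.wt, Gn.lev]
    · simp [Gn.wt, Gn.lev]
    · simp only [Gn.wt, Gn.lev, Gn.v.injEq, Finset.sum_ite_eq, Finset.mem_univ, if_true]
      simp
      ring
    · simp [Gn.wt, Gn.lev]
  rw [Finset.sum_congr rfl fun t _ => h1 (v t), Finset.sum_sub_distrib, Finset.sum_sub_distrib,
    ← Finset.mul_sum, Finset.sum_boole, Finset.sum_comm]
  have h2 : (1 : ℤ) ≤ ∑ t, if v t = Gn.x then 1 else 0 := by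
    have := Finset.single_le_sum (f := fun t => if v t = Gn.x then (1 : ℤ) else 0)
      (fun t _ => by positivity) (Finset.mem_univ t0)
    simpa [ht0] using this
  have h3 : ∑ a ∈ Sᶜ, ((d a : ℤ) + 1) ≤
      ∑ a, ∑ t, (if v t = Gn.v a then ((d a : ℤ) + 1) else 0) := by
    have h4 : ∀ a, 0 ≤ ∑ t, (if v t = Gn.v a then ((d a : ℤ) + 1) else 0) := fun a =>
      Finset.sum_nonneg fun t _ => by positivity
    refine le_trans (Finset.sum_le_sum fun a ha => ?_)
      (Finset.sum_le_sum_of_subset_of_nonneg (Finset.subset_univ Sᶜ) fun a _ _ => h4 a)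
    obtain ⟨t, ht⟩ := hS a (Finset.mem_compl.1 ha)
    have := Finset.single_le_sum (f := fun t => if v t = Gn.v a then ((d a : ℤ) + 1) else 0)
      (fun t _ => by positivity) (Finset.mem_univ t)
    simpa [ht] using this
  have h5 : ((Finset.univ.filter fun t => (v t).lev ≤ 2).card : ℤ) ≤ m + 1 := by
    exact_mod_cast hT
  linarith

end sel

variable {F : α → MvPolynomial (Fin (n + 1)) K} {d : α → ℕ}
    {D : α → (Fin (n + 1) →₀ ℕ) → Derivation ℤ K K} {ep : α → (Fin (n + 1) →₀ ℕ) → ℕ}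
    {q : Place k K → ℤ}

variable [IsAlgClosed k] [CharZero k] [IsFF k K]

omit [IsAlgClosed k] in
theorem finite_ne {f : K} : {P : Place k K | P.ord f ≠ 0}.Finite := finite_support f

open Classical in
/-- The height inequality. -/
theorem ineq [Fintype α] (hS : Sys k F d D ep q) {x : Fin (n + 1) → K} (hx0 : x ≠ 0) {m : ℕ}
    (W : Submodule K (Fin (n + 1) → K)) (hWm : Module.finrank K W ≤ m + 1) (hxW : x ∈ W)
    (hDW : ∀ a (I : Fin (n + 1) →₀ ℕ), I.degree = d a → (fun l => D a I (x l)) ∈ W) :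
    ((∑ a, (d a : ℤ)) + ((Finset.univ.filter fun a => eval x (F a) = 0).card : ℤ) -
      2 * m - 1) * pht k x ≤ ∑ᶠ P : Place k K, (((Finset.univ.filter fun a => eval x (F a) ≠ 0 ∧
        d a * pord P x < P.ord (eval x (F a))).card : ℤ) +
          ((Finset.univ.filter fun a => eval x (F a) ≠ 0).card + m + 1) * q P) := by
  obtain ⟨l0, hl0⟩ := Function.ne_iff.1 hx0
  have hl0' : x l0 ≠ 0 := hl0
  obtain ⟨v, hdet, hv⟩ := exists_adapted (gw d D x l0) Gn.lev span_gw
  obtain ⟨t0, ht0⟩ := sel_x hx0 hdet hv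
  have hselv := sel_v hS hl0' hdet hv
  have hT := card_T hdet W hWm hxW hDW
  obtain ⟨S, hSd⟩ : ∃ S : Finset α, S = Finset.univ.filter fun a => ∀ t, v t ≠ Gn.v a := ⟨_, rfl⟩
  have hSv : ∀ a ∈ S, ∀ t, v t ≠ Gn.v a := fun a ha => by
    rw [hSd, Finset.mem_filter] at ha
    exact ha.2
  have hS0 : ∀ a ∈ S, eval x (F a) ≠ 0 := by
    intro a ha h0
    obtain ⟨t, ht⟩ := hselv a h0
    exact hSv a ha t ht
  have hwt := sum_wt (d := d) ht0 hT S (fun a ha => by
    rw [hSd, Finset.mem_filter, not_and] at ha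
    have := ha (Finset.mem_univ _)
    push Not at this
    exact this)
  obtain ⟨w, hw⟩ : ∃ w : ℤ, w = ∑ t, (v t).wt d := ⟨_, rfl⟩
  obtain ⟨Θ, hΘ⟩ : ∃ Θ, Θ = (Matrix.of fun t => gw d D x l0 (v t)).det /
    ∏ a ∈ S, eval x (F a) := ⟨_, rfl⟩
  have hprod0 : ∏ a ∈ S, eval x (F a) ≠ 0 := Finset.prod_ne_zero_iff.2 hS0
  have hΘ0 : Θ ≠ 0 := by
    rw [hΘ]; exact div_ne_zero hdet hprod0
  have hordprod : ∀ (P : Place k K) (s : Finset α), (∀ a ∈ s, eval x (F a) ≠ 0) →
      P.ord (∏ a ∈ s, eval x (F a)) = ∑ a ∈ s, P.ord (eval x (F a)) := by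
    intro P s
    induction s using Finset.induction_on with
    | empty => intro _; simp [P.ord_one]
    | insert a s ha ih =>
      intro h
      rw [Finset.prod_insert ha, Finset.sum_insert ha, P.ord_mul (h a (Finset.mem_insert_self _ _))
        (Finset.prod_ne_zero_iff.2 fun b hb => h b (Finset.mem_insert_of_mem hb)),
        ih fun b hb => h b (Finset.mem_insert_of_mem hb)]
  -- the local inequality
  have hloc : ∀ P : Place k K, (w - ∑ a ∈ S, (d a : ℤ)) * pord P x -
      (((Finset.univ.filter fun a => eval x (F a) ≠ 0 ∧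
        d a * pord P x < P.ord (eval x (F a))).card : ℤ) +
          ((Finset.univ.filter fun a => eval x (F a) ≠ 0).card + m + 1) * q P) ≤
      P.ord Θ := by
    intro P
    have hq0 := hS.nonneg P
    obtain ⟨S', hS'⟩ : ∃ S' : Finset α, S' = S.filter fun a =>
      d a * pord P x < P.ord (eval x (F a)) := ⟨_, rfl⟩
    have h1 := local_ge hS hl0' v hdet hv hT S' (fun a ha => hSv a (by
      rw [hS', Finset.mem_filter] at ha; exact ha.1)) (fun a ha => hS0 a (by
      rw [hS', Finset.mem_filter] at ha; exact ha.1)) P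
    rw [← hw] at h1
    have h2 : P.ord Θ = P.ord (Matrix.of fun t => gw d D x l0 (v t)).det -
        ∑ a ∈ S, P.ord (eval x (F a)) := by
      rw [hΘ, P.ord_div hdet hprod0, hordprod P S hS0]
    have h3 : ∑ a ∈ S, P.ord (eval x (F a)) ≤ ∑ a ∈ S', (P.ord (eval x (F a)) - d a * pord P x) +
        (∑ a ∈ S, (d a : ℤ)) * pord P x := by
      have h4 : ∑ a ∈ S, P.ord (eval x (F a)) = ∑ a ∈ S, (P.ord (eval x (F a)) - d a * pord P x) +
          (∑ a ∈ S, (d a : ℤ)) * pord P x := by
        rw [Finset.sum_mul, ← Finset.sum_add_distrib]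
        exact Finset.sum_congr rfl fun a _ => by ring
      rw [h4, hS', Finset.sum_filter]
      refine add_le_add_left (Finset.sum_le_sum fun a _ => ?_) _
      split_ifs with h
      · exact le_rfl
      · omega
    have h5 : ∑ a ∈ S', (P.ord (eval x (F a)) - d a * pord P x - 1 - q P) =
        ∑ a ∈ S', (P.ord (eval x (F a)) - d a * pord P x) - S'.card * (1 + q P) := by
      rw [← nsmul_eq_mul, ← Finset.sum_const, ← Finset.sum_sub_distrib]
      exact Finset.sum_congr rfl fun a _ => by ring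
    have h6 : (S'.card : ℤ) ≤ (Finset.univ.filter fun a => eval x (F a) ≠ 0 ∧
        d a * pord P x < P.ord (eval x (F a))).card := by
      have : S' ⊆ Finset.univ.filter fun a => eval x (F a) ≠ 0 ∧
          d a * pord P x < P.ord (eval x (F a)) := by
        intro a ha
        rw [hS', Finset.mem_filter] at ha
        exact Finset.mem_filter.2 ⟨Finset.mem_univ _, hS0 a ha.1, ha.2⟩
      exact_mod_cast Finset.card_le_card this
    have h7 : (S'.card : ℤ) * q P ≤ (Finset.univ.filter fun a => eval x (F a) ≠ 0).card * q P := by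
      refine mul_le_mul_of_nonneg_right ?_ hq0
      have : S' ⊆ Finset.univ.filter fun a => eval x (F a) ≠ 0 := by
        intro a ha
        rw [hS', Finset.mem_filter] at ha
        exact Finset.mem_filter.2 ⟨Finset.mem_univ _, hS0 a ha.1⟩
      exact_mod_cast Finset.card_le_card this
    rw [h5] at h1
    rw [h2]
    have h8 : (S'.card : ℤ) * (1 + q P) = S'.card + S'.card * q P := by ring
    have h9 : (((Finset.univ.filter fun a => eval x (F a) ≠ 0).card : ℤ) + m + 1) * q P =
        (Finset.univ.filter fun a => eval x (F a) ≠ 0).card * q P + (m + 1) * q P := by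
      ring
    rw [h8] at h1
    rw [h9, sub_mul]
    linarith
  -- summation
  obtain ⟨C, hC⟩ : ∃ C : Place k K → ℤ, ∀ P, C P = ((Finset.univ.filter fun a =>
      eval x (F a) ≠ 0 ∧ d a * pord P x < P.ord (eval x (F a))).card : ℤ) +
        ((Finset.univ.filter fun a => eval x (F a) ≠ 0).card + m + 1) * q P :=
    ⟨_, fun _ => rfl⟩
  have hp := pord_finite (k := k) (Function.ne_iff.1 hx0)
  have hCfin : {P | C P ≠ 0}.Finite := by
    have h1 : (⋃ a : α, {P : Place k K | P.ord (eval x (F a)) ≠ 0}).Finite :=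
      Set.finite_iUnion fun a => finite_ne
    refine ((h1.union hp).union hS.fin).subset fun P hP => ?_
    by_contra hcon
    simp only [Set.mem_union, Set.mem_iUnion, Set.mem_ofPred_eq, not_or, not_exists, not_not] at hcon
    obtain ⟨⟨h2, h3⟩, h4⟩ := hcon
    have h3' : pord P x = 0 := by
      by_contra h
      exact h3 h
    apply hP
    rw [hC, h4, mul_zero, add_zero, Nat.cast_eq_zero, Finset.card_eq_zero,
      Finset.filter_eq_empty_iff]
    rintro a - ⟨-, h5⟩
    rw [h2 a, h3', mul_zero] at h5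
    exact lt_irrefl _ h5
  obtain ⟨T1, hT1⟩ := exists_supp (k := k) (Finset.univ : Finset Unit) (fun _ => Θ)
  obtain ⟨U, hU⟩ : ∃ U : Finset (Place k K), U = T1 ∪ (hp.toFinset ∪ hCfin.toFinset) := ⟨_, rfl⟩
  have g1 : ∑ P ∈ U, P.ord Θ = 0 := sum_ord_finset _ _ fun P hP => by
    rw [hU]; exact Finset.mem_union_left _ (hT1 () (Finset.mem_univ _) P hP)
  have g2 : pht k x = - ∑ P ∈ U, pord P x := by
    unfold pht
    rw [finsum_eq_sum_of_support_subset (s := U)]
    intro P hP
    rw [hU]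
    exact Finset.mem_union_right _ (Finset.mem_union_left _ (hp.mem_toFinset.2 hP))
  have g3 : ∑ᶠ P, C P = ∑ P ∈ U, C P := by
    rw [finsum_eq_sum_of_support_subset (s := U)]
    intro P hP
    rw [hU]
    exact Finset.mem_union_right _ (Finset.mem_union_right _ (hCfin.mem_toFinset.2 hP))
  have g4 := Finset.sum_le_sum (s := U) fun P _ => hloc P
  rw [Finset.sum_sub_distrib, ← Finset.mul_sum, g1] at g4
  simp only [← hC] at g4
  rw [← g3] at g4
  have hpht : 0 ≤ pht k x :=
    (hgt_nonneg _).trans (Pool.Agent.W603.CX.hgt_le_pht (k := k) x hl0 hl0)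
  have g5 : (∑ a ∈ S, (d a : ℤ) - w) * pht k x ≤ ∑ᶠ P, C P := by
    have : (w - ∑ a ∈ S, (d a : ℤ)) * ∑ P ∈ U, pord P x =
        (∑ a ∈ S, (d a : ℤ) - w) * pht k x := by rw [g2]; ring
    rw [this] at g4
    linarith
  have g6 : (∑ a, (d a : ℤ)) + ((Finset.univ.filter fun a => eval x (F a) = 0).card : ℤ) -
      2 * m - 1 ≤ ∑ a ∈ S, (d a : ℤ) - w := by
    have h1 : ∑ a ∈ S, (d a : ℤ) + ∑ a ∈ Sᶜ, (d a : ℤ) = ∑ a, (d a : ℤ) :=
      Finset.sum_add_sum_compl S _
    have h2 : ∑ a ∈ Sᶜ, ((d a : ℤ) + 1) = ∑ a ∈ Sᶜ, (d a : ℤ) + Sᶜ.card := by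
      rw [Finset.sum_add_distrib]
      simp
    have h3 : ((Finset.univ.filter fun a => eval x (F a) = 0).card : ℤ) ≤ Sᶜ.card := by
      have : (Finset.univ.filter fun a => eval x (F a) = 0) ⊆ Sᶜ := by
        intro a ha
        rw [Finset.mem_compl]
        intro haS
        exact hS0 a haS (Finset.mem_filter.1 ha).2
      exact_mod_cast Finset.card_le_card this
    rw [h2] at hwt
    rw [hw]
    linarith
  simp only [← hC]
  exact (mul_le_mul_of_nonneg_right g6 hpht).trans g5

/-- The height inequality for points that satisfy all equations. -/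
theorem ineq_eq [Fintype α] (hS : Sys k F d D ep q) {x : Fin (n + 1) → K} (hx0 : x ≠ 0) {m : ℕ}
    (hxF : ∀ a, eval x (F a) = 0)
    (W : Submodule K (Fin (n + 1) → K)) (hWm : Module.finrank K W ≤ m + 1) (hxW : x ∈ W)
    (hDW : ∀ a (I : Fin (n + 1) →₀ ℕ), I.degree = d a → (fun l => D a I (x l)) ∈ W) :
    ((∑ a, (d a : ℤ)) + (Fintype.card α : ℤ) - 2 * m - 1) * pht k x ≤
      (m + 1) * ∑ᶠ P : Place k K, q P := by
  classical
  have key := ineq hS hx0 W hWm hxW hDW
  have h1 : (Finset.univ.filter fun a => eval x (F a) = 0) = Finset.univ :=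
    Finset.filter_true_of_mem fun a _ => hxF a
  have h2 : ∀ P : Place k K, (((Finset.univ.filter fun a => eval x (F a) ≠ 0 ∧
      d a * pord P x < P.ord (eval x (F a))).card : ℤ) +
        ((Finset.univ.filter fun a => eval x (F a) ≠ 0).card + m + 1) * q P) =
          (m + 1) * q P := by
    intro P
    have h3 : (Finset.univ.filter fun a => eval x (F a) ≠ 0 ∧
        d a * pord P x < P.ord (eval x (F a))) = ∅ := by
      rw [Finset.filter_eq_empty_iff]
      rintro a - ⟨h, -⟩
      exact h (hxF a)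
    have h4 : (Finset.univ.filter fun a => eval x (F a) ≠ 0) = ∅ := by
      rw [Finset.filter_eq_empty_iff]
      rintro a - h
      exact h (hxF a)
    rw [h3, h4, Finset.card_empty]
    push_cast
    ring
  have h5 : (((Finset.univ.filter fun a => eval x (F a) = 0).card : ℕ) : ℤ) =
      Fintype.card α := by rw [h1, Finset.card_univ]
  rw [finsum_congr h2, ← mul_finsum, h5] at key
  exact key

end Pool.Agent.TH812.GV
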