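import Pool.Agent.TH812.GV.Sys

/-!
Systems of normalised forms: the coefficient with the exponent `I0 a` of the form `F a` is `1`, and
the other coefficients are independent.
-/

set_option autoImplicit false

open MvPolynomial Pool.Agent.TH145.GH

namespace Pool.Agent.TH812.GV

variable {K : Type} [Field K] {n : ℕ} {α : Type}

/-- The exponents of the coefficients that are not normalised. -/
abbrev Ix {n : ℕ} {α : Type} (d : α → ℕ) (I0 : α → Fin (n + 1) →₀ ℕ) : Type :=
  {p : α × (Fin (n + 1) →₀ ℕ) // p.2.degree = d p.1 ∧ p.2 ≠ I0 p.1}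

theorem finite_Ix [Finite α] (d : α → ℕ) (I0 : α → Fin (n + 1) →₀ ℕ) : Finite (Ix d I0) := by
  classical
  have := Fintype.ofFinite α
  have h1 : (⋃ a : α, (fun I : Fin (n + 1) →₀ ℕ => (a, I)) '' {I | I.degree = d a}).Finite := by
    refine Set.finite_iUnion fun a => Set.Finite.image _ ?_
    refine (Finsupp.finite_of_degree_le (d a)).subset fun I hI => ?_
    exact le_of_eq hI
  have h2 : {p : α × (Fin (n + 1) →₀ ℕ) | p.2.degree = d p.1 ∧ p.2 ≠ I0 p.1}.Finite := by
    refine h1.subset fun p hp => ?_
    exact Set.mem_iUnion.2 ⟨p.1, ⟨p.2, hp.1, rfl⟩⟩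
  exact h2.to_subtype

open Classical in
/-- The derivations of a normalised system. -/
noncomputable def sysD (F : α → MvPolynomial (Fin (n + 1)) K) (d : α → ℕ)
    (I0 : α → Fin (n + 1) →₀ ℕ) [Fintype (Ix d I0)] (Db : Ix d I0 → Derivation ℤ K K) (a : α)
    (I : Fin (n + 1) →₀ ℕ) : Derivation ℤ K K :=
  if h : I.degree = d a ∧ I ≠ I0 a then Db ⟨(a, I), h⟩ else
    if I = I0 a then
      - ∑ p : Ix d I0, (if p.1.1 = a then (F p.1.1).coeff p.1.2 else 0) • Db p
    else 0

open Classical in
noncomputable def sysE (I0 : α → Fin (n + 1) →₀ ℕ) (a : α) (I : Fin (n + 1) →₀ ℕ) : ℕ :=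
  if I = I0 a then 1 else 0

theorem der_sum_apply' {ι : Type} (s : Finset ι) (D : ι → Derivation ℤ K K) (x : K) :
    (∑ i ∈ s, D i) x = ∑ i ∈ s, D i x := by
  classical
  induction s using Finset.induction_on with
  | empty => simp
  | insert a s ha ih => rw [Finset.sum_insert ha, Finset.sum_insert ha, Derivation.add_apply, ih]

theorem sysD_dual {F : α → MvPolynomial (Fin (n + 1)) K} {d : α → ℕ}
    {I0 : α → Fin (n + 1) →₀ ℕ} [Fintype (Ix d I0)] (h1 : ∀ a, (F a).coeff (I0 a) = 1)
    {Db : Ix d I0 → Derivation ℤ K K}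
    (hDb : ∀ b b' : Ix d I0, (b = b' → Db b ((F b'.1.1).coeff b'.1.2) = 1) ∧
      (b ≠ b' → Db b ((F b'.1.1).coeff b'.1.2) = 0)) :
    DualS F d (sysD F d I0 Db) (sysE I0) := by
  classical
  intro a b I J hI hJ
  by_cases hJ0 : J = I0 b
  · rw [hJ0, h1, Derivation.map_one_eq_zero]
    by_cases hab : a = b
    · subst hab
      rw [if_pos rfl]
      unfold sysE
      by_cases hI0 : I = I0 a
      · rw [if_pos hI0, if_pos hI0]; simp
      · rw [if_neg hI0, if_neg hI0]; simp
    · rw [if_neg hab]
  · obtain ⟨q, hq⟩ : ∃ q : Ix d I0, q = ⟨(b, J), hJ, hJ0⟩ := ⟨_, rfl⟩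
    have hqc : (F b).coeff J = (F q.1.1).coeff q.1.2 := by rw [hq]
    by_cases hI0 : I = I0 a
    · have h2 : sysD F d I0 Db a I =
          - ∑ p : Ix d I0, (if p.1.1 = a then (F p.1.1).coeff p.1.2 else 0) • Db p := by
        unfold sysD
        rw [dif_neg (by rintro ⟨-, h⟩; exact h hI0), if_pos hI0]
      rw [h2, Derivation.neg_apply, der_sum_apply', hqc, Finset.sum_eq_single q]
      · rw [Derivation.smul_apply, (hDb q q).1 rfl, smul_eq_mul, mul_one]
        have h3 : q.1.1 = b := by rw [hq]
        unfold sysE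
        rw [if_pos hI0, h3]
        by_cases hab : a = b
        · rw [if_pos hab, if_pos hab.symm, if_neg]
          · simp
          · intro hIJ
            apply hJ0
            rw [← hIJ, hI0, hab]
        · rw [if_neg hab, if_neg fun h => hab h.symm, neg_zero]
      · intro p _ hp
        rw [Derivation.smul_apply, (hDb p q).2 hp, smul_zero]
      · intro h; exact absurd (Finset.mem_univ _) h
    · have h2 : sysD F d I0 Db a I = Db ⟨(a, I), hI, hI0⟩ := by
        unfold sysD
        rw [dif_pos ⟨hI, hI0⟩]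
      rw [h2, hqc]
      unfold sysE
      rw [if_neg hI0]
      by_cases hab : a = b
      · rw [if_pos hab]
        by_cases hIJ : I = J
        · rw [if_pos hIJ, (hDb _ q).1 (by rw [hq]; subst hab; subst hIJ; rfl)]
          simp
        · rw [if_neg hIJ, (hDb _ q).2 (by
            rw [hq]
            intro h
            exact hIJ (congrArg (fun p : Ix d I0 => p.1.2) h))]
          simp
      · rw [if_neg hab, (hDb _ q).2 (by
            rw [hq]
            intro h
            exact hab (congrArg (fun p : Ix d I0 => p.1.1) h))]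

/-- A property of the derivations that is preserved by linear combinations. -/
theorem sysD_prop {F : α → MvPolynomial (Fin (n + 1)) K} {d : α → ℕ}
    {I0 : α → Fin (n + 1) →₀ ℕ} [Fintype (Ix d I0)] {Db : Ix d I0 → Derivation ℤ K K}
    (p : Derivation ℤ K K → Prop) (h0 : p 0) (hadd : ∀ D E, p D → p E → p (D + E))
    (hsmul : ∀ q : Ix d I0, p ((F q.1.1).coeff q.1.2 • Db q)) (hneg : ∀ D, p D → p (-D))
    (h : ∀ b, p (Db b)) (a : α) (I : Fin (n + 1) →₀ ℕ) : p (sysD F d I0 Db a I) := by
  classical
  unfold sysD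
  split_ifs with h1 h2
  · exact h _
  · apply hneg
    have h3 : ∀ s : Finset (Ix d I0),
        p (∑ p ∈ s, (if p.1.1 = a then (F p.1.1).coeff p.1.2 else 0) • Db p) := by
      intro s
      induction s using Finset.induction_on with
      | empty => rw [Finset.sum_empty]; exact h0
      | insert b s hb ih =>
        rw [Finset.sum_insert hb]
        refine hadd _ _ ?_ ih
        split_ifs
        · exact hsmul b
        · rw [zero_smul]; exact h0
    exact h3 _
  · exact h0

end Pool.Agent.TH812.GV
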