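import Pool.Agent.TH812.GV.Det
import Pool.Agent.TH145.GH.Ineq

/-!
The vector fields of a system of forms with independent coefficients.
-/

set_option autoImplicit false

open MvPolynomial FF Pool.Agent.W603.LV Pool.Agent.W603.PV Pool.Agent.TH145.GH

namespace Pool.Agent.TH812.GV

variable {K : Type} [Field K] {n : ℕ} {α : Type}

open Classical in
/-- The derivations `D a I` are dual to the coefficients of the forms `F a`, up to multiples of the
forms. -/
def DualS (F : α → MvPolynomial (Fin (n + 1)) K) (d : α → ℕ)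
    (D : α → (Fin (n + 1) →₀ ℕ) → Derivation ℤ K K) (ep : α → (Fin (n + 1) →₀ ℕ) → ℕ) : Prop :=
  ∀ (a b : α) (I J : Fin (n + 1) →₀ ℕ), I.degree = d a → J.degree = d b →
    D a I ((F b).coeff J) = if a = b then (if I = J then 1 else 0) - ep a I * (F b).coeff J else 0

/-- The differential of `F` as a linear form. -/
noncomputable def dL (F : MvPolynomial (Fin (n + 1)) K) (x : Fin (n + 1) → K) :
    (Fin (n + 1) → K) →ₗ[K] K where
  toFun := dF F x
  map_add' := dF_add F x
  map_smul' a z := by rw [dF_smul]; rfl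

theorem dL_apply (F : MvPolynomial (Fin (n + 1)) K) (x z : Fin (n + 1) → K) :
    dL F x z = dF F x z := rfl

open Classical in
theorem dL_D {F : α → MvPolynomial (Fin (n + 1)) K} {d : α → ℕ}
    {D : α → (Fin (n + 1) →₀ ℕ) → Derivation ℤ K K} {ep : α → (Fin (n + 1) →₀ ℕ) → ℕ}
    (hF : ∀ a, (F a).IsHomogeneous (d a)) (hD : DualS F d D ep) (x : Fin (n + 1) → K) (a b : α)
    {I : Fin (n + 1) →₀ ℕ} (hI : I.degree = d a) :
    dL (F b) x (fun l => D a I (x l)) = D a I (eval x (F b)) -
      if a = b then mon x I - ep a I * eval x (F b) else 0 := by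
  have h1 := chainM (D a I) x (F b)
  have h2 : ∑ u ∈ (F b).support, D a I ((F b).coeff u) * mon x u =
      if a = b then mon x I - ep a I * eval x (F b) else 0 := by
    have hs : ∀ u ∈ (F b).support, u.degree = d b := fun u hu => deg_of_mem (hF b) hu
    by_cases hab : a = b
    · subst hab
      rw [if_pos rfl]
      have h3 : ∀ u ∈ (F a).support, D a I ((F a).coeff u) * mon x u =
          (if I = u then mon x u else 0) - ep a I * ((F a).coeff u * mon x u) := by
        intro u hu
        rw [hD a a I u hI (hs u hu), if_pos rfl]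
        split_ifs <;> ring
      rw [Finset.sum_congr rfl h3, Finset.sum_sub_distrib, Finset.sum_ite_eq, ← Finset.mul_sum,
        ← eval_mon]
      have h4 : I ∈ (F a).support := by
        by_contra hcon
        have h5 := hD a a I I hI hI
        rw [notMem_support_iff.1 hcon, map_zero, if_pos rfl, if_pos rfl, mul_zero, sub_zero] at h5
        exact zero_ne_one h5
      rw [if_pos h4]
    · rw [if_neg hab]
      refine Finset.sum_eq_zero fun u hu => ?_
      rw [hD a b I u hI (hs u hu), if_neg hab, zero_mul]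
  rw [h2] at h1
  rw [dL_apply, h1]
  unfold dF
  ring

/-- The generators. -/
inductive Gn (α : Type) (n : ℕ) where
  | x : Gn α n
  | de (a : α) (M : Fin (n + 1) →₀ ℕ) (i j : Fin (n + 1)) : Gn α n
  | v (a : α) : Gn α n
  | e (i : Fin (n + 1)) : Gn α n

/-- The level. -/
def Gn.lev : Gn α n → ℕ
  | .x => 0
  | .de _ _ _ _ => 1
  | .v _ => 2
  | .e _ => 3

/-- The weight. -/
def Gn.wt (d : α → ℕ) : Gn α n → ℤ
  | .x => 1
  | .de _ _ _ _ => 2
  | .v a => 1 - d a
  | .e _ => 0

/-- The vector fields. -/
noncomputable def gw (d : α → ℕ) (D : α → (Fin (n + 1) →₀ ℕ) → Derivation ℤ K K)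
    (x : Fin (n + 1) → K) (l0 : Fin (n + 1)) : Gn α n → Fin (n + 1) → K
  | .x => x
  | .de a M i j => fun l => if M.degree + 1 = d a then
      x j * D a (M + Finsupp.single i 1) (x l) - x i * D a (M + Finsupp.single j 1) (x l) else 0
  | .v a => fun l => (x l0 ^ d a)⁻¹ * D a (Finsupp.single l0 (d a)) (x l)
  | .e i => Pi.single i 1

/-- The spans of the generators of bounded level. -/
noncomputable def Hs (d : α → ℕ) (D : α → (Fin (n + 1) →₀ ℕ) → Derivation ℤ K K)
    (x : Fin (n + 1) → K) (l0 : Fin (n + 1)) (L : ℕ) : Submodule K (Fin (n + 1) → K) :=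
  Submodule.span K (gw d D x l0 '' {g | g.lev ≤ L})

variable {d : α → ℕ} {D : α → (Fin (n + 1) →₀ ℕ) → Derivation ℤ K K} {x : Fin (n + 1) → K}
  {l0 : Fin (n + 1)}

theorem Hs_mono {L L' : ℕ} (h : L ≤ L') : Hs d D x l0 L ≤ Hs d D x l0 L' :=
  Submodule.span_mono (Set.image_mono fun _ hg => le_trans hg h)

theorem gw_mem (g : Gn α n) : gw d D x l0 g ∈ Hs d D x l0 g.lev :=
  Submodule.subset_span ⟨g, le_refl g.lev, rfl⟩

theorem x_mem (L : ℕ) : x ∈ Hs d D x l0 L :=
  Submodule.subset_span ⟨Gn.x, Nat.zero_le _, rfl⟩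

theorem de_mem (a : α) {M : Fin (n + 1) →₀ ℕ} (hM : M.degree + 1 = d a) (i j : Fin (n + 1)) :
    x j • (fun l => D a (M + Finsupp.single i 1) (x l)) -
      x i • (fun l => D a (M + Finsupp.single j 1) (x l)) ∈ Hs d D x l0 1 := by
  have h1 : gw d D x l0 (Gn.de a M i j) ∈ Hs d D x l0 1 := gw_mem (Gn.de a M i j)
  have h2 : gw d D x l0 (Gn.de a M i j) = x j • (fun l => D a (M + Finsupp.single i 1) (x l)) -
      x i • (fun l => D a (M + Finsupp.single j 1) (x l)) := by
    funext l
    simp only [gw, if_pos hM, Pi.sub_apply, Pi.smul_apply, smul_eq_mul]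
  rwa [h2] at h1

/-- All derivatives with respect to the coefficients of one form are proportional modulo the
vectors of level at most one. -/
theorem D_mem (hx : x l0 ≠ 0) (a : α) : ∀ (m : ℕ) (I : Fin (n + 1) →₀ ℕ), I.degree = d a →
    d a - I l0 = m → (fun l => D a I (x l)) - mon x I • gw d D x l0 (Gn.v a) ∈ Hs d D x l0 1 := by
  classical
  intro m
  induction m with
  | zero =>
    intro I hI hm
    have h1 : I = Finsupp.single l0 (d a) := by
      have h2 : I l0 ≤ d a := by
        rw [← hI]
        exact Finsupp.le_degree l0 I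
      have h3 : I l0 = d a := by omega
      have h4 : Finsupp.single l0 (d a) ≤ I := by
        rw [Finsupp.single_le_iff, h3]
      obtain ⟨c, hc⟩ := le_iff_exists_add.1 h4
      have h5 : c.degree = 0 := by
        have h6 := congrArg Finsupp.degree hc
        rw [map_add, Finsupp.degree_single, hI] at h6
        omega
      rw [Finsupp.degree_eq_zero_iff] at h5
      rw [hc, h5, add_zero]
    have h2 : (fun l => D a I (x l)) - mon x I • gw d D x l0 (Gn.v a) = 0 := by
      funext l
      rw [h1, mon_single]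
      simp only [gw, Pi.sub_apply, Pi.smul_apply, smul_eq_mul, Pi.zero_apply]
      rw [← mul_assoc, mul_inv_cancel₀ (pow_ne_zero _ hx), one_mul, sub_self]
    rw [h2]
    exact zero_mem _
  | succ m ih =>
    intro I hI hm
    obtain ⟨i, hil, hi⟩ : ∃ i, i ≠ l0 ∧ I i ≠ 0 := by
      by_contra hcon
      push Not at hcon
      have h1 : I.degree = I l0 := by
        rw [Finsupp.degree_eq_sum, Finset.sum_eq_single l0]
        · intro j _ hj; exact hcon j hj
        · intro h; exact absurd (Finset.mem_univ _) h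
      omega
    obtain ⟨M, hM⟩ : ∃ M, I = M + Finsupp.single i 1 := by
      have h1 : Finsupp.single i 1 ≤ I := by
        rw [Finsupp.single_le_iff]; omega
      obtain ⟨c, hc⟩ := le_iff_exists_add.1 h1
      exact ⟨c, hc.trans (add_comm _ _)⟩
    have hMd : M.degree + 1 = d a := by
      have h1 := congrArg Finsupp.degree hM
      rw [map_add, Finsupp.degree_single, hI] at h1
      exact h1.symm
    obtain ⟨I', hI'⟩ : ∃ I', I' = M + Finsupp.single l0 1 := ⟨_, rfl⟩
    have hI'd : I'.degree = d a := by
      rw [hI', map_add, Finsupp.degree_single, hMd]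
    have hI'l : I' l0 = I l0 + 1 := by
      rw [hI', hM, Finsupp.add_apply, Finsupp.add_apply, Finsupp.single_eq_same,
        Finsupp.single_eq_of_ne hil.symm, add_zero]
    have h1 := ih I' hI'd (by rw [hI'l]; omega)
    have h2 := de_mem (D := D) (x := x) (l0 := l0) a hMd i l0
    rw [← hM, ← hI'] at h2
    have h3 := Submodule.add_mem _ h2 (Submodule.smul_mem _ (x i) h1)
    have h4 : x l0 • ((fun l => D a I (x l)) - mon x I • gw d D x l0 (Gn.v a)) ∈
        Hs d D x l0 1 := by
      have h5 : x l0 * mon x I = x i * mon x I' := by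
        rw [hM, hI', mon_add, mon_add, mon_single, mon_single]
        ring
      have h6 : x l0 • ((fun l => D a I (x l)) - mon x I • gw d D x l0 (Gn.v a)) =
          x l0 • (fun l => D a I (x l)) - x i • (fun l => D a I' (x l)) +
            x i • ((fun l => D a I' (x l)) - mon x I' • gw d D x l0 (Gn.v a)) := by
        rw [smul_sub, smul_smul, h5, smul_sub, smul_smul]
        abel
      rw [h6]
      exact h3
    rwa [Submodule.smul_mem_iff _ hx] at h4

section rel

variable {F : α → MvPolynomial (Fin (n + 1)) K} {ep : α → (Fin (n + 1) →₀ ℕ) → ℕ}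

theorem dL_x (hF : ∀ a, (F a).IsHomogeneous (d a)) (b : α) (x : Fin (n + 1) → K) :
    dL (F b) x x = d b * eval x (F b) := by
  have h1 := congrArg (eval x) (hF b).sum_X_mul_pderiv
  rw [map_sum, map_nsmul, nsmul_eq_mul] at h1
  rw [dL_apply, ← h1]
  unfold dF
  refine Finset.sum_congr rfl fun l _ => ?_
  rw [map_mul, eval_X]
  ring

open Classical in
theorem dL_de (hF : ∀ a, (F a).IsHomogeneous (d a)) (hD : DualS F d D ep) (a b : α)
    {M : Fin (n + 1) →₀ ℕ} (hM : M.degree + 1 = d a) (i j : Fin (n + 1)) :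
    dL (F b) x (gw d D x l0 (Gn.de a M i j)) =
      x j * D a (M + Finsupp.single i 1) (eval x (F b)) -
        x i * D a (M + Finsupp.single j 1) (eval x (F b)) +
        if a = b then (x j * ep a (M + Finsupp.single i 1) -
          x i * ep a (M + Finsupp.single j 1)) * eval x (F b) else 0 := by
  have h2 : gw d D x l0 (Gn.de a M i j) = x j • (fun l => D a (M + Finsupp.single i 1) (x l)) -
      x i • (fun l => D a (M + Finsupp.single j 1) (x l)) := by
    funext l
    simp only [gw, if_pos hM, Pi.sub_apply, Pi.smul_apply, smul_eq_mul]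
  rw [h2, map_sub, map_smul, map_smul, dL_D hF hD x a b (by
    rw [map_add, Finsupp.degree_single, hM]), dL_D hF hD x a b (by
    rw [map_add, Finsupp.degree_single, hM]), smul_eq_mul, smul_eq_mul]
  split_ifs
  · rw [mon_add, mon_add, mon_single, mon_single]
    ring
  · ring

theorem de_zero {a : α} {M : Fin (n + 1) →₀ ℕ} (hM : ¬ M.degree + 1 = d a)
    (i j : Fin (n + 1)) : gw d D x l0 (Gn.de a M i j) = 0 := by
  funext l
  simp only [gw, if_neg hM]
  rfl

open Classical in
theorem dL_v (hF : ∀ a, (F a).IsHomogeneous (d a)) (hD : DualS F d D ep) (hx : x l0 ≠ 0) (a b : α)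
    (hb : eval x (F b) = 0) :
    dL (F b) x (gw d D x l0 (Gn.v a)) = if a = b then -1 else 0 := by
  have h2 : gw d D x l0 (Gn.v a) =
      (x l0 ^ d a)⁻¹ • (fun l => D a (Finsupp.single l0 (d a)) (x l)) := by
    funext l
    simp only [gw, Pi.smul_apply, smul_eq_mul]
  rw [h2, map_smul, dL_D hF hD x a b (by rw [Finsupp.degree_single]), hb, map_zero, mul_zero,
    smul_eq_mul, mon_single]
  split_ifs
  · rw [sub_zero, zero_sub, mul_neg, inv_mul_cancel₀ (pow_ne_zero _ hx)]
  · rw [sub_zero, mul_zero]

end rel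

end Pool.Agent.TH812.GV
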