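import Pool.Agent.TH812.GV.Duals
import Pool.Agent.TH812.GV.Norm
import Pool.Agent.W603.CZ.Defs

/-!
Vojta's height inequality for generic pairs over a function field.
-/

set_option autoImplicit false

open MvPolynomial FF Pool.Agent.W603.LV Pool.Agent.W603.PV Pool.Agent.TH145.GH
  Pool.Agent.TH145.MG Pool.Agent.W602.GT Pool.Agent.W603.CZ

namespace Pool.Agent.TH812.GV

theorem aeval_eq_eval_map {F L : Type} [Field F] [Field L] [Algebra F L] {n : ℕ}
    (x : Fin (n + 1) → L) (p : MvPolynomial (Fin (n + 1)) F) :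
    aeval x p = eval x (map (algebraMap F L) p) := by
  rw [aeval_def, eval_map]

/-- A sum over the places. -/
theorem finsum_le_card {ι : Type} {f : ι → ℤ} {A : Set ι} (hA : A.Finite) {M : ℤ}
    (h : ∀ P, f P ≤ M) (h0 : ∀ P, f P ≠ 0 → P ∈ A) : ∑ᶠ P, f P ≤ M * A.ncard := by
  classical
  rw [finsum_eq_sum_of_support_subset (s := hA.toFinset) _ (fun P hP => by
    rw [Set.Finite.coe_toFinset]; exact h0 P hP), Set.ncard_eq_toFinset_card _ hA]
  refine (Finset.sum_le_sum fun P _ => h P).trans ?_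
  rw [Finset.sum_const, nsmul_eq_mul, mul_comm]

theorem fin_arith {b a e m A n c1 c2 g : ℤ} (hb : b = a - e) (he : 0 ≤ e) (hm : 0 ≤ m)
    (hA : 0 ≤ A) (hn : 0 ≤ n) (h1 : 0 ≤ c1) (h2 : 0 ≤ c2) :
    b * (A + n * c2) + (b + m + 1) * (g + c1 * n) ≤
      (a - e + m + 1) * (g + A) + ((a + m + 1) * c1 + a * c2) * n := by
  have h3 : (a - e + m + 1) * (g + A) + ((a + m + 1) * c1 + a * c2) * n -
      (b * (A + n * c2) + (b + m + 1) * (g + c1 * n)) =
      (m + 1) * A + e * (c1 * n) + e * (n * c2) := by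
    rw [hb]; ring
  have h4 : 0 ≤ (m + 1) * A + e * (c1 * n) + e * (n * c2) := by positivity
  linarith

theorem vojta_generic {k0 k F : Type} [Field k0] [Field k] [Field F] [IsAlgClosed k] [CharZero k]
    [Algebra k0 k] [Algebra k F] [Algebra k0 F] [IsScalarTower k0 k F] [IsFF k F] {n m : ℕ}
    (V : Set (MvPolynomial (Fin (n + 1)) k0)) (hV : DimLE k0 V m) {α : Type} [Fintype α]
    (H : α → MvPolynomial (Fin (n + 1)) F) (d : α → ℕ) (hH : ∀ a, (H a).IsHomogeneous (d a))
    (I0 : α → Fin (n + 1) →₀ ℕ) (hI0 : ∀ a, (H a).coeff (I0 a) ≠ 0)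
    (hgen : AlgebraicIndependent k0 fun p : {p : α × (Fin (n + 1) →₀ ℕ) //
      p.2.degree = d p.1 ∧ p.2 ≠ I0 p.1} => (H p.1.1).coeff p.1.2 / (H p.1.1).coeff (I0 p.1.1))
    (E : Finset α) : ∃ C : ℕ, ∀ (L : Type) [Field L] [Algebra k L] [Algebra F L]
      [IsScalarTower k F L] [FiniteDimensional F L] (x : Fin (n + 1) → L), x ≠ 0 →
      (∀ f ∈ V, aeval x (map (algebraMap k0 F) f) = 0) → (∀ a ∈ E, aeval x (H a) = 0) →
      (∀ a ∉ E, aeval x (H a) ≠ 0) →
      (∑ a, (d a : ℤ) + E.card - 2 * m - 1) * pht k x ≤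
        ((Fintype.card α : ℤ) - E.card + m + 1) * (canDeg k L +
          (meetsAny (k := k) (fun a : {a // a ∉ E} => H a) (fun a => d a) x).ncard) +
          C * Module.finrank F L := by
  classical
  have hF : CharZero F := charZero_of_injective_algebraMap (algebraMap k F).injective
  have := finite_Ix d I0
  have := Fintype.ofFinite (Ix d I0)
  -- normalised forms
  obtain ⟨G, hG⟩ : ∃ G : α → MvPolynomial (Fin (n + 1)) F, ∀ a,
    G a = C ((H a).coeff (I0 a))⁻¹ * H a := ⟨_, fun _ => rfl⟩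
  have hGc : ∀ a I, (G a).coeff I = (H a).coeff I / (H a).coeff (I0 a) := by
    intro a I
    rw [hG, coeff_C_mul, mul_comm, div_eq_mul_inv]
  have hG1 : ∀ a, (G a).coeff (I0 a) = 1 := fun a => by rw [hGc, div_self (hI0 a)]
  have hGh : ∀ a, (G a).IsHomogeneous (d a) := fun a => by
    rw [hG]
    have := (isHomogeneous_C (Fin (n + 1)) ((H a).coeff (I0 a))⁻¹).mul (hH a)
    rwa [zero_add] at this
  obtain ⟨Db, hDbg, hDbk, hDb⟩ := exists_duals (k0 := k0) (k := k) (F := F)
    (fun p : Ix d I0 => (G p.1.1).coeff p.1.2) (by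
      have h1 : (fun p : Ix d I0 => (G p.1.1).coeff p.1.2) = fun p : Ix d I0 =>
          (H p.1.1).coeff p.1.2 / (H p.1.1).coeff (I0 p.1.1) := by
        funext p
        rw [hGc]
      rw [h1]
      exact hgen)
  obtain ⟨D, hD⟩ : ∃ D, D = sysD G d I0 Db := ⟨_, rfl⟩
  have hdual : DualS G d D (sysE I0) := hD ▸ sysD_dual hG1 hDb
  have hgood : ∀ a I, Good k (D a I) := by
    intro a I
    rw [hD]
    exact sysD_prop (Good k) Good.zero (fun D E h h' => h.add h') (fun q => (hDbg q).smul _)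
      (fun D h => h.neg) hDbg a I
  have hDk : ∀ a I (r : k0), D a I (algebraMap k0 F r) = 0 := by
    intro a I
    rw [hD]
    refine sysD_prop (fun D : Derivation ℤ F F => ∀ r : k0, D (algebraMap k0 F r) = 0) ?_ ?_ ?_ ?_
      hDbk a I
    · intro r; rfl
    · intro D E h h' r
      rw [Derivation.add_apply, h, h', add_zero]
    · intro q r
      rw [Derivation.smul_apply, hDbk, smul_zero]
    · intro D h r
      rw [Derivation.neg_apply, h, neg_zero]
  -- the loss
  choose q hq0 hqf hq using hgood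
  have hfinI : ∀ a, {I : Fin (n + 1) →₀ ℕ | I.degree = d a}.Finite := fun a =>
    (Finsupp.finite_of_degree_le (d a)).subset fun I hI => le_of_eq hI
  obtain ⟨Q, hQ⟩ : ∃ Q : Place k F → ℤ, ∀ v, Q v = ∑ a, ∑ I ∈ (hfinI a).toFinset, q a I v :=
    ⟨_, fun _ => rfl⟩
  have hQ0 : ∀ v, 0 ≤ Q v := fun v => by
    rw [hQ]
    exact Finset.sum_nonneg fun a _ => Finset.sum_nonneg fun I _ => hq0 a I v
  have hQf : {v | Q v ≠ 0}.Finite := by
    have h1 : (⋃ a : α, ⋃ I ∈ (hfinI a).toFinset, {v | q a I v ≠ 0}).Finite :=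
      Set.finite_iUnion fun a => (hfinI a).toFinset.finite_toSet.biUnion fun I _ => hqf a I
    refine h1.subset fun v hv => ?_
    by_contra hcon
    simp only [Set.mem_iUnion, not_exists, Set.mem_ofPred_eq, not_not] at hcon
    apply hv
    rw [hQ]
    exact Finset.sum_eq_zero fun a _ => Finset.sum_eq_zero fun I hI => hcon a I hI
  have hQle : ∀ a (I : Fin (n + 1) →₀ ℕ), I.degree = d a → ∀ v, q a I v ≤ Q v := by
    intro a I hI v
    rw [hQ]
    refine le_trans ?_ (Finset.single_le_sum (f := fun a => ∑ I ∈ (hfinI a).toFinset, q a I v)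
      (fun a _ => Finset.sum_nonneg fun I _ => hq0 a I v) (Finset.mem_univ a))
    exact Finset.single_le_sum (f := fun I => q a I v) (fun I _ => hq0 a I v)
      (by rw [Set.Finite.mem_toFinset]; exact hI)
  obtain ⟨C1, hC1⟩ := sum_loss (k := k) hQ0 hQf
  -- the places where the scaling factors are not units
  obtain ⟨S0, hS0⟩ := exists_supp (k := k) (Finset.univ : Finset α) fun a => (H a).coeff (I0 a)
  obtain ⟨C2, hC2⟩ : ∃ C2 : ℕ, (C2 : ℤ) = ∑ v ∈ S0, hgt k (unif v) :=
    ⟨(∑ v ∈ S0, hgt k (unif v)).toNat, Int.toNat_of_nonneg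
      (Finset.sum_nonneg fun _ _ => hgt_nonneg _)⟩
  refine ⟨(Fintype.card α + m + 1) * C1 + Fintype.card α * C2, ?_⟩
  intro L _ _ _ _ _ x hx hxV hxE hxB
  have hL : IsFF k L := isFF_of_finite (F := F)
  have hLz : CharZero L := charZero_of_injective_algebraMap (algebraMap k L).injective
  let _ : Algebra k0 L := ((algebraMap F L).comp (algebraMap k0 F)).toAlgebra
  choose D' hD' hDl using fun a I => hq a I L
  obtain ⟨HL, hHL⟩ : ∃ HL : α → MvPolynomial (Fin (n + 1)) L, ∀ a,
    HL a = map (algebraMap F L) (G a) := ⟨_, fun _ => rfl⟩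
  obtain ⟨hqfin, hqsum⟩ := hC1 L
  obtain ⟨ql, hql⟩ : ∃ ql : Place k L → ℤ, ∀ P, ql P =
    ((ram F P : ℤ) - 1) + ram F P * Q (under F P) := ⟨_, fun _ => rfl⟩
  have hsys : Sys k HL d D' (sysE I0) ql := by
    refine ⟨fun a => by rw [hHL]; exact (hGh a).map _, ?_, fun P => ?_, fun P f hf a I hI => ?_, ?_⟩
    · intro a b I J hI hJ
      rw [hHL, coeff_map, hD', hdual a b I J hI hJ]
      split_ifs
      · simp
      · simp
      · simp
    · rw [hql]
      have h1 := (ram_spec (F := F) P).1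
      have h2 := hQ0 (under F P)
      have h3 : (0 : ℤ) ≤ ram F P * Q (under F P) := mul_nonneg (by positivity) h2
      omega
    · rw [hql]
      refine (hDl a I P f hf).mono ?_
      have h1 := hQle a I hI (under F P)
      have h2 : (0 : ℤ) ≤ ram F P := by positivity
      nlinarith
    · simp only [hql]
      exact hqfin
  have hDk' : ∀ a I (r : k0), D' a I (algebraMap k0 L r) = 0 := by
    intro a I r
    change D' a I (algebraMap F L (algebraMap k0 F r)) = 0
    rw [hD', hDk, map_zero]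
  have htr : Algebra.trdeg k0 (coords k0 x) ≤ m := by
    refine hV L x hx fun f hf => ?_
    have h1 := hxV f hf
    rw [aeval_eq_eval_map, map_map, eval_map] at h1
    rw [aeval_def]
    exact h1
  obtain ⟨W, hWm, hxW, hDW⟩ := exists_W hx htr
  have key := ineq hsys hx W hWm hxW fun a I _ => hDW (D' a I) (hDk' a I)
  -- the values of the normalised forms
  have hval : ∀ a, eval x (HL a) = algebraMap F L ((H a).coeff (I0 a))⁻¹ * aeval x (H a) := by
    intro a
    rw [hHL, hG, map_mul, map_mul, map_C, eval_C, aeval_eq_eval_map]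
  have hs0 : ∀ a, algebraMap F L ((H a).coeff (I0 a))⁻¹ ≠ 0 := fun a => by
    rw [Ne, map_eq_zero]; exact inv_ne_zero (hI0 a)
  have hE1 : (Finset.univ.filter fun a => eval x (HL a) = 0) = E := by
    ext a
    rw [Finset.mem_filter, hval]
    constructor
    · rintro ⟨-, h⟩
      by_contra ha
      exact hxB a ha ((mul_eq_zero.1 h).resolve_left (hs0 a))
    · intro ha
      exact ⟨Finset.mem_univ _, by rw [hxE a ha, mul_zero]⟩
  have hB1 : (Finset.univ.filter fun a => eval x (HL a) ≠ 0) = Eᶜ := by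
    ext a
    rw [Finset.mem_filter, Finset.mem_compl, ← hE1, Finset.mem_filter]
    exact ⟨fun h h' => h.2 h'.2, fun h => ⟨Finset.mem_univ _, fun h0 => h ⟨Finset.mem_univ _, h0⟩⟩⟩
  have hBc : ((Eᶜ.card : ℕ) : ℤ) = Fintype.card α - E.card := by
    rw [Finset.card_compl, Nat.cast_sub (Finset.card_le_univ E)]
  rw [hE1, hB1] at key
  -- the counting function
  obtain ⟨cnt, hcnt⟩ : ∃ cnt : Place k L → ℤ, ∀ P, cnt P = ((Finset.univ.filter fun a =>
    eval x (HL a) ≠ 0 ∧ d a * pord P x < P.ord (eval x (HL a))).card : ℤ) := ⟨_, fun _ => rfl⟩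
  obtain ⟨A, hA⟩ : ∃ A : Set (Place k L), A = meetsAny (k := k)
    (fun a : {a // a ∉ E} => H a) (fun a => d a) x := ⟨_, rfl⟩
  have hAfin : A.Finite := by
    have hp := pord_finite (k := k) (Function.ne_iff.1 hx)
    have h1 : (⋃ a : α, {P : Place k L | P.ord (aeval x (H a)) ≠ 0}).Finite :=
      Set.finite_iUnion fun a => finite_support _
    refine (h1.union hp).subset fun P hP => ?_
    by_contra hcon
    simp only [Set.mem_union, Set.mem_iUnion, Set.mem_ofPred_eq, not_or, not_exists, not_not] at hcon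
    obtain ⟨h2, h3⟩ := hcon
    have h3' : pord P x = 0 := by
      by_contra h
      exact h3 h
    rw [hA] at hP
    obtain ⟨a, ha⟩ := hP
    rw [h3', mul_zero, h2 a.1] at ha
    exact lt_irrefl _ ha
  have hBfin : {P : Place k L | under F P ∈ S0}.Finite := finite_over_set (Finset.finite_toSet S0)
  have hcle : ∀ P, cnt P ≤ Eᶜ.card := by
    intro P
    rw [hcnt]
    have : (Finset.univ.filter fun a =>
        eval x (HL a) ≠ 0 ∧ d a * pord P x < P.ord (eval x (HL a))) ⊆ Eᶜ := by
      intro a ha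
      rw [← hB1]
      rw [Finset.mem_filter] at ha ⊢
      exact ⟨ha.1, ha.2.1⟩
    exact_mod_cast Finset.card_le_card this
  have hcsupp : ∀ P, cnt P ≠ 0 → P ∈ A ∪ {P : Place k L | under F P ∈ S0} := by
    intro P hP
    rw [hcnt, Ne, Nat.cast_eq_zero, Finset.card_eq_zero, ← Ne, ← Finset.nonempty_iff_ne_empty] at hP
    obtain ⟨a, ha⟩ := hP
    rw [Finset.mem_filter] at ha
    obtain ⟨-, ha0, ha⟩ := ha
    have haE : a ∉ E := by
      rw [← hE1, Finset.mem_filter, not_and]
      exact fun _ => ha0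
    by_cases hu : under F P ∈ S0
    · exact Or.inr hu
    · left
      rw [hA]
      refine ⟨⟨a, haE⟩, ?_⟩
      rw [hval, P.ord_mul (hs0 a) (hxB a haE), ord_under] at ha
      have h1 : (under F P).ord ((H a).coeff (I0 a)) = 0 := by
        by_contra h
        exact hu (hS0 a (Finset.mem_univ _) _ h)
      rw [(under F P).ord_inv, h1, neg_zero, mul_zero, zero_add] at ha
      exact ha
  have hcfin : {P | cnt P ≠ 0}.Finite := (hAfin.union hBfin).subset hcsupp
  have hcsum : ∑ᶠ P, cnt P ≤ Eᶜ.card * (A.ncard + Module.finrank F L * C2) := by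
    have h1 := finsum_le_card (hAfin.union hBfin) (M := Eᶜ.card) hcle hcsupp
    have h2 : (((A ∪ {P : Place k L | under F P ∈ S0}).ncard : ℕ) : ℤ) ≤
        A.ncard + Module.finrank F L * C2 := by
      have h3 := Set.ncard_union_le A {P : Place k L | under F P ∈ S0}
      have h4 := card_over_le (L := L) S0
      rw [← hC2] at h4
      have h5 : (((A ∪ {P : Place k L | under F P ∈ S0}).ncard : ℕ) : ℤ) ≤
        (A.ncard : ℤ) + ({P : Place k L | under F P ∈ S0}.ncard : ℕ) := by exact_mod_cast h3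
      linarith
    exact h1.trans (mul_le_mul_of_nonneg_left h2 (by positivity))
  have hfs : ∑ᶠ P : Place k L, (cnt P + (Eᶜ.card + m + 1) * ql P) =
      ∑ᶠ P, cnt P + (Eᶜ.card + m + 1) * ∑ᶠ P, ql P := by
    have h1 : {P | ql P ≠ 0}.Finite := hsys.fin
    rw [finsum_add_distrib hcfin (h1.subset fun P hP => right_ne_zero_of_mul hP),
      ← mul_finsum]
  simp only [← hcnt] at key
  rw [hfs] at key
  have hqs : ∑ᶠ P, ql P ≤ canDeg k L + C1 * Module.finrank F L := by
    have h1 : ql = fun P => ((ram F P : ℤ) - 1) + ram F P * Q (under F P) := funext hql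
    rw [h1]
    exact hqsum
  have h10 : ((Eᶜ.card : ℤ) + m + 1) * ∑ᶠ P, ql P ≤
      (Eᶜ.card + m + 1) * (canDeg k L + C1 * Module.finrank F L) :=
    mul_le_mul_of_nonneg_left hqs (by positivity)
  rw [← hA]
  have hfinal : ((Eᶜ.card : ℤ)) * (A.ncard + Module.finrank F L * C2) +
      (Eᶜ.card + m + 1) * (canDeg k L + C1 * Module.finrank F L) ≤
      ((Fintype.card α : ℤ) - E.card + m + 1) * (canDeg k L + A.ncard) +
        ((Fintype.card α + m + 1) * C1 + Fintype.card α * C2) * Module.finrank F L :=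
    fin_arith hBc (Nat.cast_nonneg _) (Nat.cast_nonneg _) (Nat.cast_nonneg _) (Nat.cast_nonneg _)
      (Nat.cast_nonneg _) (Nat.cast_nonneg _)
  have hgoal : (∑ a, (d a : ℤ) + E.card - 2 * m - 1) * pht k x ≤ _ := key.trans
    (add_le_add hcsum h10)
  have hcast : (((Fintype.card α + m + 1) * C1 + Fintype.card α * C2 : ℕ) : ℤ) =
      (Fintype.card α + m + 1) * C1 + Fintype.card α * C2 := by
    rw [Nat.cast_add, Nat.cast_mul, Nat.cast_mul, Nat.cast_add, Nat.cast_add, Nat.cast_one]
  rw [hcast]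
  exact hgoal.trans hfinal

end Pool.Agent.TH812.GV
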